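import Mathlib

/-!
# Words in two affine maps and their leading blocks
-/

set_option autoImplicit false

namespace Pool.Agent.H54.Free

/-- The map `f` or `g` chosen by a Boolean, iterated along a word (the first letter is applied
last). -/
def act {K : Type*} (f g : K → K) : List Bool → K → K
  | [], s => s
  | c :: l, s => (if c then g else f) (act f g l s)

lemma act_append {K : Type*} (f g : K → K) (l m : List Bool) (s : K) :
    act f g (l ++ m) s = act f g l (act f g m s) := by
  induction l with
  | nil => rfl
  | cons c l ih => simp only [List.cons_append, act, ih]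

/-- A map conjugating `f, g` to `f', g'` conjugates all words. -/
lemma act_conj {K L : Type*} {f g : K → K} {f' g' : L → L} (φ : K → L)
    (hf : ∀ s, φ (f s) = f' (φ s)) (hg : ∀ s, φ (g s) = g' (φ s)) (l : List Bool) (s : K) :
    φ (act f g l s) = act f' g' l (φ s) := by
  induction l with
  | nil => rfl
  | cons c l ih =>
    cases c
    · simp only [act, Bool.false_eq_true, if_false, hf, ih]
    · simp only [act, if_true, hg, ih]

/-- A set preserved by both maps is preserved by all words. -/
lemma act_mem {K : Type*} {f g : K → K} {S : K → Prop} (hf : ∀ s, S s → S (f s))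
    (hg : ∀ s, S s → S (g s)) (l : List Bool) {s : K} (hs : S s) : S (act f g l s) := by
  induction l with
  | nil => exact hs
  | cons c l ih =>
    cases c
    · simp only [act, Bool.false_eq_true, if_false]; exact hf _ ih
    · simp only [act, if_true]; exact hg _ ih

lemma act_injective {K : Type*} {f g : K → K} (hf : Function.Injective f)
    (hg : Function.Injective g) (l : List Bool) : Function.Injective (act f g l) := by
  induction l with
  | nil => exact fun _ _ h => h
  | cons c l ih =>
    intro s t h
    cases c
    · simp only [act, Bool.false_eq_true, if_false] at h; exact ih (hf h)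
    · simp only [act, if_true] at h; exact ih (hg h)

/-- The inverse maps give the reversed word. -/
lemma act_inverse {K : Type*} {f g f' g' : K → K} (hf : ∀ s, f' (f s) = s)
    (hg : ∀ s, g' (g s) = s) (l : List Bool) (s : K) :
    act f' g' l.reverse (act f g l s) = s := by
  induction l generalizing s with
  | nil => rfl
  | cons c l ih =>
    rw [List.reverse_cons, act_append]
    cases c
    · simp only [act, Bool.false_eq_true, if_false, hf, ih]
    · simp only [act, if_true, hg, ih]

/-- The leading block of a word. -/
lemma exists_lead (c : Bool) (l : List Bool) : ∃ (n : ℕ) (r : List Bool),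
    l = List.replicate n c ++ r ∧ (r = [] ∨ ∃ r', r = (!c) :: r') := by
  induction l with
  | nil => exact ⟨0, [], rfl, Or.inl rfl⟩
  | cons d l ih =>
    by_cases hd : d = c
    · obtain ⟨n, r, h1, h2⟩ := ih
      exact ⟨n + 1, r, by rw [hd, h1]; rfl, h2⟩
    · refine ⟨0, d :: l, rfl, Or.inr ⟨l, ?_⟩⟩
      cases c <;> cases d <;> simp_all

section field

variable {K : Type*} [Field K]

/-- A block of `n` letters acting by `s ↦ a s + c`. -/
lemma act_block_false (a c : K) (g : K → K) (n : ℕ) (s : K) :
    act (fun t => a * t + c) g (List.replicate n false) s =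
      a ^ n * s + c * ∑ i ∈ Finset.range n, a ^ i := by
  induction n with
  | zero => simp [act]
  | succ n ih =>
    rw [List.replicate_succ]
    simp only [act, Bool.false_eq_true, if_false, ih]
    rw [Finset.sum_range_succ', pow_zero]
    have : ∑ i ∈ Finset.range n, a ^ (i + 1) = a * ∑ i ∈ Finset.range n, a ^ i := by
      rw [Finset.mul_sum]
      exact Finset.sum_congr rfl fun i _ => by ring
    rw [this]
    ring

lemma act_block_true (a c : K) (f : K → K) (n : ℕ) (s : K) :
    act f (fun t => a * t + c) (List.replicate n true) s =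
      a ^ n * s + c * ∑ i ∈ Finset.range n, a ^ i := by
  induction n with
  | zero => simp [act]
  | succ n ih =>
    rw [List.replicate_succ]
    simp only [act, if_true, ih]
    rw [Finset.sum_range_succ', pow_zero]
    have : ∑ i ∈ Finset.range n, a ^ (i + 1) = a * ∑ i ∈ Finset.range n, a ^ i := by
      rw [Finset.mul_sum]
      exact Finset.sum_congr rfl fun i _ => by ring
    rw [this]
    ring

end field

/-- The two maps with fixed points `0` and `1`. -/
abbrev fM (a : ℚ) : ℚ → ℚ := fun t => a * t + 0
abbrev gM (b : ℚ) : ℚ → ℚ := fun t => b * t + (1 - b)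

/-- Conjugation to the normalisation `x ↦ a x`, `x ↦ b x + 1`. -/
lemma act_x {a b : ℚ} (hb1 : b ≠ 1) (l : List Bool) (s : ℚ) :
    act (fM a) (gM b) l s / (1 - b) =
      act (fun t => a * t + 0) (fun t => b * t + 1) l (s / (1 - b)) := by
  have h : (1 - b) ≠ 0 := sub_ne_zero.2 (Ne.symm hb1)
  refine act_conj (fun s => s / (1 - b)) (fun s => ?_) (fun s => ?_) l s
  · simp only [add_zero]; ring
  · field_simp

/-- Conjugation to the normalisation `z ↦ a z + 1`, `z ↦ b z`. -/
lemma act_z {a b : ℚ} (ha1 : a ≠ 1) (l : List Bool) (s : ℚ) :
    (1 - act (fM a) (gM b) l s) / (1 - a) =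
      act (fun t => a * t + 1) (fun t => b * t + 0) l ((1 - s) / (1 - a)) := by
  have h : (1 - a) ≠ 0 := sub_ne_zero.2 (Ne.symm ha1)
  refine act_conj (fun s => (1 - s) / (1 - a)) (fun s => ?_) (fun s => ?_) l s
  · field_simp; ring
  · simp only [add_zero]; ring

/-- integrality at `p` -/
lemma act_int {p : ℕ} [Fact p.Prime] {a b c d : ℚ} (ha : padicNorm p a ≤ 1)
    (hb : padicNorm p b ≤ 1) (hc : padicNorm p c ≤ 1) (hd : padicNorm p d ≤ 1) (l : List Bool)
    {s : ℚ} (hs : padicNorm p s ≤ 1) :
    padicNorm p (act (fun t => a * t + c) (fun t => b * t + d) l s) ≤ 1 := by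
  refine act_mem (S := fun s => padicNorm p s ≤ 1) (fun s hs => ?_) (fun s hs => ?_) l hs
  · refine padicNorm.nonarchimedean.trans (max_le ?_ hc)
    rw [padicNorm.mul]
    exact mul_le_one₀ ha (padicNorm.nonneg _) hs
  · refine padicNorm.nonarchimedean.trans (max_le ?_ hd)
    rw [padicNorm.mul]
    exact mul_le_one₀ hb (padicNorm.nonneg _) hs

lemma norm_pow_le_one {p : ℕ} [Fact p.Prime] {a : ℚ} (ha : padicNorm p a ≤ 1) (n : ℕ) :
    padicNorm p (a ^ n) ≤ 1 := by
  induction n with
  | zero => simp
  | succ n ih =>
    rw [pow_succ, padicNorm.mul]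
    exact mul_le_one₀ ih (padicNorm.nonneg _) ha

/-- **Leading blocks of a relation**: real and `p`-adic conditions. -/
theorem lead {a b : ℚ} (ha : 0 < a) (ha1 : a < 1) (hb : 0 < b) (hb1 : b < 1) {l l' : List Bool}
    (h : ∀ s, act (fM a) (gM b) (false :: l) s = act (fM a) (gM b) (true :: l') s) :
    ∃ M N : ℕ, 1 ≤ M ∧ 1 ≤ N ∧ 1 < a ^ M + b ^ N ∧
      ∀ (p : ℕ) [Fact p.Prime], padicNorm p a ≤ 1 → padicNorm p b ≤ 1 →
        padicNorm p (∑ i ∈ Finset.range M, a ^ i) ≤ padicNorm p b ∧
          padicNorm p (∑ i ∈ Finset.range N, b ^ i) ≤ padicNorm p a := by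
  obtain ⟨m, r, hr, hr'⟩ := exists_lead false l
  obtain ⟨n, t, ht, ht'⟩ := exists_lead true l'
  have e1 : false :: l = List.replicate (m + 1) false ++ r := by rw [hr]; rfl
  have e2 : true :: l' = List.replicate (n + 1) true ++ t := by rw [ht]; rfl
  rw [e1, e2] at h
  refine ⟨m + 1, n + 1, by omega, by omega, ?_, ?_⟩
  · -- the real place
    have hI : ∀ (w : List Bool), 0 ≤ act (fM a) (gM b) w 0 ∧ act (fM a) (gM b) w 0 < 1 := by
      intro w
      refine act_mem (S := fun s => 0 ≤ s ∧ s < 1) (fun s hs => ?_) (fun s hs => ?_) w
        ⟨le_refl _, one_pos⟩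
      · constructor
        · simp only [add_zero]; exact mul_nonneg ha.le hs.1
        · simp only [add_zero]; nlinarith [hs.1, hs.2]
      · constructor <;> nlinarith [hs.1, hs.2]
    have h0 := h 0
    rw [act_append, act_append, act_block_false, act_block_true] at h0
    have hgeo : (1 - b) * ∑ i ∈ Finset.range (n + 1), b ^ i = 1 - b ^ (n + 1) := by
      rw [mul_comm]; exact geom_sum_mul_neg b (n + 1)
    rw [hgeo] at h0
    have h1 := hI r
    have h2 := hI t
    have pa : 0 < a ^ (m + 1) := pow_pos ha _
    have pb : 0 < b ^ (n + 1) := pow_pos hb _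
    nlinarith [mul_nonneg pb.le h2.1]
  · intro p _ pa pb
    have p1 : padicNorm p (1 : ℚ) ≤ 1 := by simp
    have p0 : padicNorm p (0 : ℚ) ≤ 1 := by simp
    constructor
    · -- the coordinate `z`
      have hz : ∀ w w' : List Bool, (∀ s, act (fM a) (gM b) w s = act (fM a) (gM b) w' s) →
          ∀ z, act (fun t => a * t + 1) (fun t => b * t + 0) w z =
            act (fun t => a * t + 1) (fun t => b * t + 0) w' z := by
        intro w w' hw z
        have hne : (1 - a) ≠ 0 := by linarith
        have e : z = (1 - (1 - z * (1 - a))) / (1 - a) := by field_simp; ring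
        rw [e, ← act_z ha1.ne, ← act_z ha1.ne, hw]
      have h0 := hz _ _ h 0
      rw [act_append, act_append, act_block_false, act_block_true, zero_mul, add_zero,
        one_mul] at h0
      have h1 : padicNorm p (act (fun t => a * t + 1) (fun t => b * t + 0) r 0) ≤ padicNorm p b := by
        rcases hr' with rfl | ⟨r', rfl⟩
        · simp [act, padicNorm.nonneg]
        · simp only [act, Bool.not_false, if_true, add_zero, padicNorm.mul]
          exact mul_le_of_le_one_right (padicNorm.nonneg _)
            (by simpa only [add_zero] using act_int pa pb p1 p0 r' p0)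
      have h2 : padicNorm p (b ^ (n + 1) * act (fun t => a * t + 1) (fun t => b * t + 0) t 0) ≤
          padicNorm p b := by
        rw [pow_succ', mul_assoc, padicNorm.mul]
        refine mul_le_of_le_one_right (padicNorm.nonneg _) ?_
        rw [padicNorm.mul]
        exact mul_le_one₀ (norm_pow_le_one pb n) (padicNorm.nonneg _) (act_int pa pb p1 p0 t p0)
      have e : ∑ i ∈ Finset.range (m + 1), a ^ i =
          b ^ (n + 1) * act (fun t => a * t + 1) (fun t => b * t + 0) t 0 -
            a ^ (m + 1) * act (fun t => a * t + 1) (fun t => b * t + 0) r 0 := by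
        rw [← h0]; ring
      rw [e]
      refine (padicNorm.sub (p := p)).trans (max_le h2 ?_)
      rw [padicNorm.mul]
      exact (mul_le_of_le_one_left (padicNorm.nonneg _) (norm_pow_le_one pa _)).trans h1
    · -- the coordinate `x`
      have hx : ∀ w w' : List Bool, (∀ s, act (fM a) (gM b) w s = act (fM a) (gM b) w' s) →
          ∀ x, act (fun t => a * t + 0) (fun t => b * t + 1) w x =
            act (fun t => a * t + 0) (fun t => b * t + 1) w' x := by
        intro w w' hw x
        have hne : (1 - b) ≠ 0 := by linarith
        have e : x = (x * (1 - b)) / (1 - b) := by field_simp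
        rw [e, ← act_x hb1.ne, ← act_x hb1.ne, hw]
      have h0 := hx _ _ h 0
      rw [act_append, act_append, act_block_false, act_block_true, zero_mul, add_zero,
        one_mul] at h0
      have h1 : padicNorm p (act (fun t => a * t + 0) (fun t => b * t + 1) t 0) ≤ padicNorm p a := by
        rcases ht' with rfl | ⟨r', rfl⟩
        · simp [act, padicNorm.nonneg]
        · simp only [act, Bool.not_true, Bool.false_eq_true, if_false, add_zero, padicNorm.mul]
          exact mul_le_of_le_one_right (padicNorm.nonneg _)
            (by simpa only [add_zero] using act_int pa pb p0 p1 r' p0)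
      have h2 : padicNorm p (a ^ (m + 1) * act (fun t => a * t + 0) (fun t => b * t + 1) r 0) ≤
          padicNorm p a := by
        rw [pow_succ', mul_assoc, padicNorm.mul]
        refine mul_le_of_le_one_right (padicNorm.nonneg _) ?_
        rw [padicNorm.mul]
        exact mul_le_one₀ (norm_pow_le_one pa m) (padicNorm.nonneg _) (act_int pa pb p0 p1 r p0)
      have e : ∑ i ∈ Finset.range (n + 1), b ^ i =
          a ^ (m + 1) * act (fun t => a * t + 0) (fun t => b * t + 1) r 0 -
            b ^ (n + 1) * act (fun t => a * t + 0) (fun t => b * t + 1) t 0 := by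
        rw [h0]; ring
      rw [e]
      refine (padicNorm.sub (p := p)).trans (max_le h2 ?_)
      rw [padicNorm.mul]
      exact (mul_le_of_le_one_left (padicNorm.nonneg _) (norm_pow_le_one pb _)).trans h1

/-- the slope of a word -/
lemma act_slope (a b : ℚ) (l : List Bool) :
    act (fM a) (gM b) l 1 - act (fM a) (gM b) l 0 = a ^ l.count false * b ^ l.count true := by
  have : ∀ (l : List Bool) (s t : ℚ), act (fM a) (gM b) l s - act (fM a) (gM b) l t =
      a ^ l.count false * b ^ l.count true * (s - t) := by
    intro l
    induction l with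
    | nil => intro s t; simp [act]
    | cons c l ih =>
      intro s t
      cases c
      · simp only [act, Bool.false_eq_true, if_false, add_zero, List.count_cons_self,
          List.count_cons_of_ne (show false ≠ true by decide)]
        rw [← mul_sub, ih]
        simp only [pow_succ]
        ring
      · simp only [act, if_true, List.count_cons_self,
          List.count_cons_of_ne (show true ≠ false by decide)]
        rw [add_sub_add_right_eq_sub, ← mul_sub, ih]
        simp only [pow_succ]
        ring
  rw [this, sub_zero, mul_one]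

lemma slope_lt_one {a b : ℚ} (ha : 0 < a) (ha1 : a < 1) (hb : 0 < b) (hb1 : b < 1)
    {c : Bool} {l : List Bool} :
    a ^ (c :: l).count false * b ^ (c :: l).count true < 1 := by
  have h1 : ∀ n, a ^ n ≤ 1 := fun n => pow_le_one₀ ha.le ha1.le
  have h2 : ∀ n, b ^ n ≤ 1 := fun n => pow_le_one₀ hb.le hb1.le
  cases c
  · rw [List.count_cons_self, pow_succ]
    have := h1 (l.count false)
    have := h2 ((false :: l).count true)
    have pa : 0 < a ^ l.count false := pow_pos ha _
    have pb : 0 < b ^ (false :: l).count true := pow_pos hb _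
    calc a ^ l.count false * a * b ^ (false :: l).count true ≤ 1 * a * 1 := by gcongr
      _ < 1 := by linarith
  · rw [List.count_cons_self, pow_succ]
    have := h1 ((true :: l).count false)
    have := h2 (l.count true)
    have pa : 0 < a ^ (true :: l).count false := pow_pos ha _
    have pb : 0 < b ^ l.count true := pow_pos hb _
    calc a ^ (true :: l).count false * (b ^ l.count true * b) ≤ 1 * (1 * b) := by gcongr
      _ < 1 := by linarith

/-- **Obstruction, normalised form.** -/
theorem core {a b : ℚ} (ha : 0 < a) (ha1 : a < 1) (hb : 0 < b) (hb1 : b < 1) {w w' : List Bool}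
    (hne : w ≠ w') (h : ∀ s, act (fM a) (gM b) w s = act (fM a) (gM b) w' s) :
    ∃ M N : ℕ, 1 ≤ M ∧ 1 ≤ N ∧ 1 < a ^ M + b ^ N ∧
      ∀ (p : ℕ) [Fact p.Prime], padicNorm p a ≤ 1 → padicNorm p b ≤ 1 →
        padicNorm p (∑ i ∈ Finset.range M, a ^ i) ≤ padicNorm p b ∧
          padicNorm p (∑ i ∈ Finset.range N, b ^ i) ≤ padicNorm p a := by
  induction w generalizing w' with
  | nil =>
    cases w' with
    | nil => exact absurd rfl hne
    | cons c l =>
      exfalso
      have h1 := act_slope a b (c :: l)
      rw [← h 1, ← h 0] at h1
      have h2 := slope_lt_one (c := c) (l := l) ha ha1 hb hb1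
      rw [← h1] at h2
      simp [act] at h2
  | cons c l ih =>
    cases w' with
    | nil =>
      exfalso
      have h1 := act_slope a b (c :: l)
      rw [h 1, h 0] at h1
      have h2 := slope_lt_one (c := c) (l := l) ha ha1 hb hb1
      rw [← h1] at h2
      simp [act] at h2
    | cons c' l' =>
      cases c <;> cases c'
      · refine ih (w' := l') (fun h0 => hne (by rw [h0])) fun s => ?_
        have := h s
        simp only [act, Bool.false_eq_true, if_false, add_zero] at this
        exact mul_left_cancel₀ ha.ne' this
      · exact lead ha ha1 hb hb1 h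
      · exact lead ha ha1 hb hb1 fun s => (h s).symm
      · refine ih (w' := l') (fun h0 => hne (by rw [h0])) fun s => ?_
        have := h s
        simp only [act, if_true] at this
        exact mul_left_cancel₀ hb.ne' (add_right_cancel this)

end Pool.Agent.H54.Free
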