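import Mathlib

/-!
# Rankin's bound for the number of integers composed of given primes
-/

set_option autoImplicit false

open Finset

namespace Pool.Agent.H54.Free

/-- `m ↦ m ^ (-ε)` as a homomorphism. -/
noncomputable def rp (ε : ℝ) : ℕ →* ℝ where
  toFun m := (m : ℝ) ^ (-ε)
  map_one' := by simp
  map_mul' a b := by
    push_cast
    exact Real.mul_rpow (Nat.cast_nonneg a) (Nat.cast_nonneg b)

lemma rp_lt_one {ε : ℝ} (hε : 0 < ε) {p : ℕ} (hp : 2 ≤ p) : rp ε p < 1 := by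
  show (p : ℝ) ^ (-ε) < 1
  exact Real.rpow_lt_one_of_one_lt_of_neg (by exact_mod_cast hp) (by linarith)

lemma rp_nonneg (ε : ℝ) (p : ℕ) : 0 ≤ rp ε p := Real.rpow_nonneg (Nat.cast_nonneg p) _

/-- the local factors -/
lemma factor_le {ε : ℝ} (hε : 0 < ε) : ∃ C : ℝ, 1 ≤ C ∧ ∀ n : ℕ, 1 ≤ n →
    ∏ p ∈ n.primeFactors, (1 - rp ε p)⁻¹ ≤ C * (n : ℝ) ^ ε := by
  set c₀ : ℝ := (1 - rp ε 2)⁻¹ with hc0
  have h2 : rp ε 2 < 1 := rp_lt_one hε le_rfl
  have hc1 : 1 ≤ c₀ := (one_le_inv₀ (by linarith)).2 (by linarith [rp_nonneg ε 2])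
  obtain ⟨Y, hY⟩ : ∃ Y : ℕ, (2 : ℝ) ^ (1 / ε) ≤ Y := exists_nat_ge _
  refine ⟨c₀ ^ Y, one_le_pow₀ hc1, fun n hn => ?_⟩
  have key : ∀ p ∈ n.primeFactors, (1 - rp ε p)⁻¹ ≤ (if p < Y then c₀ else 1) * (p : ℝ) ^ ε := by
    intro p hp
    have hp2 : 2 ≤ p := (Nat.prime_of_mem_primeFactors hp).two_le
    have hp1 : (1 : ℝ) ≤ (p : ℝ) ^ ε :=
      Real.one_le_rpow (by exact_mod_cast (by omega : 1 ≤ p)) hε.le
    split_ifs with h
    · have : rp ε p ≤ rp ε 2 := by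
        show (p : ℝ) ^ (-ε) ≤ ((2 : ℕ) : ℝ) ^ (-ε)
        exact Real.rpow_le_rpow_of_nonpos (by norm_num) (by exact_mod_cast hp2) (by linarith)
      calc (1 - rp ε p)⁻¹ ≤ c₀ := by
            rw [hc0]; exact inv_anti₀ (by linarith) (by linarith)
        _ = c₀ * 1 := (mul_one _).symm
        _ ≤ c₀ * (p : ℝ) ^ ε := by gcongr
    · have hpY : (Y : ℝ) ≤ p := by exact_mod_cast not_lt.1 h
      have h3 : (2 : ℝ) ≤ (p : ℝ) ^ ε := by
        calc (2 : ℝ) = ((2 : ℝ) ^ (1 / ε)) ^ ε := by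
              rw [← Real.rpow_mul (by norm_num)]; field_simp; simp
          _ ≤ (p : ℝ) ^ ε := Real.rpow_le_rpow (by positivity) (hY.trans hpY) hε.le
      have h4 : rp ε p ≤ 1 / 2 := by
        show (p : ℝ) ^ (-ε) ≤ 1 / 2
        rw [Real.rpow_neg (Nat.cast_nonneg p), one_div]
        exact inv_anti₀ (by norm_num) h3
      calc (1 - rp ε p)⁻¹ ≤ (1 / 2 : ℝ)⁻¹ := inv_anti₀ (by norm_num) (by linarith)
        _ = 2 := by norm_num
        _ ≤ 1 * (p : ℝ) ^ ε := by rw [one_mul]; exact h3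
  calc ∏ p ∈ n.primeFactors, (1 - rp ε p)⁻¹
      ≤ ∏ p ∈ n.primeFactors, ((if p < Y then c₀ else 1) * (p : ℝ) ^ ε) := by
        refine Finset.prod_le_prod (fun p hp => ?_) key
        have hp2 : 2 ≤ p := (Nat.prime_of_mem_primeFactors hp).two_le
        exact inv_nonneg.2 (by linarith [rp_lt_one hε hp2])
    _ = (∏ p ∈ n.primeFactors, (if p < Y then c₀ else 1)) * ∏ p ∈ n.primeFactors, (p : ℝ) ^ ε :=
        Finset.prod_mul_distrib
    _ ≤ c₀ ^ Y * (n : ℝ) ^ ε := by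
        refine mul_le_mul ?_ ?_ (by positivity) (by positivity)
        · rw [Finset.prod_ite, Finset.prod_const, Finset.prod_const_one, mul_one]
          refine pow_le_pow_right₀ hc1 ?_
          calc #{x ∈ n.primeFactors | x < Y} ≤ #(Finset.range Y) := by
                refine Finset.card_le_card fun x hx => ?_
                exact Finset.mem_range.2 (Finset.mem_filter.1 hx).2
            _ = Y := Finset.card_range Y
        · rw [Real.finsetProd_rpow _ _ (fun p _ => Nat.cast_nonneg p)]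
          refine Real.rpow_le_rpow (by positivity) ?_ hε.le
          have : ∏ p ∈ n.primeFactors, p ≤ n := Nat.le_of_dvd hn (Nat.prod_primeFactors_dvd n)
          calc ∏ p ∈ n.primeFactors, (p : ℝ) = ((∏ p ∈ n.primeFactors, p : ℕ) : ℝ) := by push_cast; rfl
            _ ≤ n := by exact_mod_cast this

/-- **Rankin's bound**. -/
theorem rankin {ε : ℝ} (hε : 0 < ε) : ∃ C : ℝ, 1 ≤ C ∧ ∀ n H : ℕ, 1 ≤ n →
    (#{x ∈ Finset.Icc 1 H | x.primeFactors ⊆ n.primeFactors} : ℝ) ≤ C * ((H : ℝ) * n) ^ ε := by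
  obtain ⟨C, hC, h⟩ := factor_le hε
  refine ⟨C, hC, fun n H hn => ?_⟩
  set T := {x ∈ Finset.Icc 1 H | x.primeFactors ⊆ n.primeFactors} with hT
  have hf : ∀ {p : ℕ}, p.Prime → ‖rp ε p‖ < 1 := by
    intro p hp
    rw [Real.norm_eq_abs, abs_of_nonneg (rp_nonneg ε p)]
    exact rp_lt_one hε hp.two_le
  obtain ⟨hs, hsum⟩ :=
    EulerProduct.summable_and_hasSum_factoredNumbers_prod_filter_prime_geometric hf n.primeFactors
  have hfil : n.primeFactors.filter Nat.Prime = n.primeFactors :=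
    Finset.filter_true_of_mem fun p hp => Nat.prime_of_mem_primeFactors hp
  rw [hfil] at hsum
  have hmem : ∀ x ∈ T, x ∈ Nat.factoredNumbers n.primeFactors := by
    intro x hx
    obtain ⟨hx1, hx2⟩ := Finset.mem_filter.1 hx
    have hx0 : x ≠ 0 := by have := (Finset.mem_Icc.1 hx1).1; omega
    exact Nat.mem_factoredNumbers_of_primeFactors_subset hx0 hx2
  have h1 : ∑ x ∈ T, rp ε x ≤ ∏ p ∈ n.primeFactors, (1 - rp ε p)⁻¹ := by
    rw [← hsum.tsum_eq]
    have e : ∑ x ∈ T, rp ε x = ∑ x : T, rp ε (⟨x.1, hmem x.1 x.2⟩ :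
        Nat.factoredNumbers n.primeFactors) := by
      rw [← Finset.sum_coe_sort T]
    rw [e]
    have hinj : Function.Injective (fun x : T => (⟨x.1, hmem x.1 x.2⟩ :
        Nat.factoredNumbers n.primeFactors)) := by
      intro x y hxy
      exact Subtype.ext (Subtype.mk.inj hxy)
    have e2 : ∑ x : T, rp ε (⟨x.1, hmem x.1 x.2⟩ : Nat.factoredNumbers n.primeFactors) =
        ∑ y ∈ Finset.univ.map ⟨_, hinj⟩, rp ε (y : ℕ) := by
      rw [Finset.sum_map]; rfl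
    rw [e2]
    exact hsum.summable.sum_le_tsum _ fun y _ => rp_nonneg ε _
  rcases Nat.eq_zero_or_pos H with rfl | hH
  · have : T = ∅ := by rw [hT]; simp
    rw [this]
    simp only [Finset.card_empty, Nat.cast_zero]
    positivity
  have hH' : (0 : ℝ) < H := by exact_mod_cast hH
  have h2 : (#T : ℝ) * (H : ℝ) ^ (-ε) ≤ ∑ x ∈ T, rp ε x := by
    rw [← nsmul_eq_mul]
    refine Finset.card_nsmul_le_sum _ _ _ fun x hx => ?_
    obtain ⟨hx1, hx2⟩ := Finset.mem_Icc.1 (Finset.mem_filter.1 hx).1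
    show (H : ℝ) ^ (-ε) ≤ (x : ℝ) ^ (-ε)
    exact Real.rpow_le_rpow_of_nonpos (by exact_mod_cast hx1) (by exact_mod_cast hx2) (by linarith)
  have h3 := (h2.trans h1).trans (h n hn)
  rw [Real.rpow_neg hH'.le, ← div_eq_mul_inv, div_le_iff₀ (by positivity)] at h3
  rw [Real.mul_rpow hH'.le (Nat.cast_nonneg n)]
  linarith

end Pool.Agent.H54.Free
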