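import Pool.Agent.H54.Free.Mat
import Pool.Agent.H54.Free.Rankin

/-!
# Counting the matrices which do not generate a free semigroup with a given matrix
-/

set_option autoImplicit false
set_option maxHeartbeats 4000000

open Finset

namespace Pool.Agent.H54.Free

/-- `∑_{i<M} p^i q^(M-1-i)` -/
def geo (p q M : ℕ) : ℕ := ∑ i ∈ Finset.range M, p ^ i * q ^ (M - 1 - i)

lemma geo_pos {p q M : ℕ} (hp : 0 < p) (hq : 0 < q) (hM : 1 ≤ M) : 0 < geo p q M := by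
  unfold geo
  exact Finset.sum_pos (fun i _ => by positivity) ⟨0, Finset.mem_range.2 (by omega)⟩

lemma geo_le {p q M : ℕ} (hpq : p ≤ q) (hM : 1 ≤ M) : geo p q M ≤ M * q ^ (M - 1) := by
  unfold geo
  calc ∑ i ∈ Finset.range M, p ^ i * q ^ (M - 1 - i)
      ≤ ∑ i ∈ Finset.range M, q ^ (M - 1) := by
        refine Finset.sum_le_sum fun i hi => ?_
        have hi' : i ≤ M - 1 := by have := Finset.mem_range.1 hi; omega
        calc p ^ i * q ^ (M - 1 - i) ≤ q ^ i * q ^ (M - 1 - i) :=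
              Nat.mul_le_mul_right _ (Nat.pow_le_pow_left hpq i)
          _ = q ^ (M - 1) := by rw [← pow_add, Nat.add_sub_cancel' hi']
    _ = M * q ^ (M - 1) := by rw [Finset.sum_const, Finset.card_range, smul_eq_mul]

/-- Consequences of the obstruction for a matrix with small part `s₂`, big part `b₂`. -/
lemma bad_cases {x₁ y₁ z₁ x₂ y₂ z₂ s₁ b₁ s₂ b₂ L : ℕ} {η : ℝ}
    (hr : (s₁ = x₁ ∧ b₁ = z₁ ∧ s₂ = x₂ ∧ b₂ = z₂) ∨ (s₁ = z₁ ∧ b₁ = x₁ ∧ s₂ = z₂ ∧ b₂ = x₂))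
    (hs₁ : 0 < s₁) (hsb₁ : s₁ < b₁) (hs₂ : 0 < s₂) (hη : 0 < η)
    (h₂ : (s₂ : ℝ) ≤ (1 - η) * b₂) (hL : ((s₁ : ℝ) / b₁) ^ L ≤ η)
    (hnf : ¬ FreePair x₁ y₁ z₁ x₂ y₂ z₂) :
    x₁ * y₂ + y₁ * z₂ = x₂ * y₁ + y₂ * z₁ ∨
      ∃ M ∈ Finset.Ico 1 L,
        s₂.primeFactors ⊆ (b₂ * (b₁ * geo (s₁ / s₁.gcd b₁) (b₁ / s₁.gcd b₁) M)).primeFactors := by
  by_cases hc : x₁ * y₂ + y₁ * z₂ = x₂ * y₁ + y₂ * z₁
  · exact Or.inl hc
  right
  have hb₁ : 0 < b₁ := hs₁.trans hsb₁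
  have hb₁' : (0 : ℝ) < b₁ := by exact_mod_cast hb₁
  have hs₁' : (0 : ℝ) < s₁ := by exact_mod_cast hs₁
  have hs₂' : (0 : ℝ) < s₂ := by exact_mod_cast hs₂
  have hb₂' : (0 : ℝ) < b₂ := by
    by_contra h0
    have : (b₂ : ℝ) = 0 := le_antisymm (not_lt.1 h0) (Nat.cast_nonneg _)
    rw [this, mul_zero] at h₂
    linarith
  have hb₂ : 0 < b₂ := by exact_mod_cast hb₂'
  have hη1 : 0 < 1 - η := by
    by_contra h0
    have : (1 - η) * b₂ ≤ 0 := mul_nonpos_of_nonpos_of_nonneg (not_lt.1 h0) hb₂'.le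
    linarith
  have hsb₂ : s₂ < b₂ := by
    have : (s₂ : ℝ) < b₂ := by nlinarith
    exact_mod_cast this
  set g₁ := s₁.gcd b₁ with hg1
  set g₂ := s₂.gcd b₂ with hg2
  have pg1 : 0 < g₁ := Nat.gcd_pos_of_pos_left _ hs₁
  have pg2 : 0 < g₂ := Nat.gcd_pos_of_pos_left _ hs₂
  set p₁ := s₁ / g₁ with hp1
  set q₁ := b₁ / g₁ with hq1
  set p₂ := s₂ / g₂ with hp2
  set q₂ := b₂ / g₂ with hq2
  have e1 : g₁ * p₁ = s₁ := Nat.mul_div_cancel' (Nat.gcd_dvd_left _ _)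
  have e2 : g₁ * q₁ = b₁ := Nat.mul_div_cancel' (Nat.gcd_dvd_right _ _)
  have e3 : g₂ * p₂ = s₂ := Nat.mul_div_cancel' (Nat.gcd_dvd_left _ _)
  have e4 : g₂ * q₂ = b₂ := Nat.mul_div_cancel' (Nat.gcd_dvd_right _ _)
  have c1 : Nat.Coprime p₁ q₁ := Nat.coprime_div_gcd_div_gcd pg1
  have c2 : Nat.Coprime p₂ q₂ := Nat.coprime_div_gcd_div_gcd pg2
  have pp1 : 0 < p₁ := Nat.pos_of_ne_zero fun h0 => by rw [h0] at e1; omega
  have pp2 : 0 < p₂ := Nat.pos_of_ne_zero fun h0 => by rw [h0] at e3; omega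
  have lt1 : p₁ < q₁ := by
    by_contra h0
    have := Nat.mul_le_mul_left g₁ (not_lt.1 h0)
    omega
  have lt2 : p₂ < q₂ := by
    by_contra h0
    have := Nat.mul_le_mul_left g₂ (not_lt.1 h0)
    omega
  have r1 : s₁ * q₁ = p₁ * b₁ := by rw [← e1, ← e2]; ring
  have r2 : s₂ * q₂ = p₂ * b₂ := by rw [← e3, ← e4]; ring
  have hncm : (!![x₁, y₁; 0, z₁] : Matrix (Fin 2) (Fin 2) ℕ) * !![x₂, y₂; 0, z₂] ≠
      !![x₂, y₂; 0, z₂] * !![x₁, y₁; 0, z₁] := by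
    intro h0
    apply hc
    have := congrFun (congrFun h0 0) 1
    simpa [Matrix.mul_fin_two] using this
  obtain ⟨M, N, hM, hN, hlt, hd1, -⟩ : ∃ M N : ℕ, 1 ≤ M ∧ 1 ≤ N ∧
      1 < ((p₁ : ℚ) / q₁) ^ M + ((p₂ : ℚ) / q₂) ^ N ∧
      (∀ d, d ∣ p₂ → Nat.Coprime d q₁ → d ∣ ∑ i ∈ Finset.range M, p₁ ^ i * q₁ ^ (M - 1 - i)) ∧
      ∀ d, d ∣ p₁ → Nat.Coprime d q₂ → d ∣ ∑ i ∈ Finset.range N, p₂ ^ i * q₂ ^ (N - 1 - i) := by
    rcases hr with ⟨rfl, rfl, rfl, rfl⟩ | ⟨rfl, rfl, rfl, rfl⟩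
    · exact obstruction hs₁ hb₁ hs₂ hb₂ pp1 lt1 c1 pp2 lt2 c2 (Or.inl ⟨r1, r2⟩) hncm hnf
    · exact obstruction hb₁ hs₁ hb₂ hs₂ pp1 lt1 c1 pp2 lt2 c2 (Or.inr ⟨r1, r2⟩) hncm hnf
  have hq1' : (0 : ℝ) < q₁ := by exact_mod_cast pp1.trans lt1
  have hq2' : (0 : ℝ) < q₂ := by exact_mod_cast pp2.trans lt2
  have ea : (p₁ : ℝ) / q₁ = s₁ / b₁ := by
    rw [div_eq_div_iff hq1'.ne' hb₁'.ne']; exact_mod_cast r1.symm
  have eb : (p₂ : ℝ) / q₂ = s₂ / b₂ := by
    rw [div_eq_div_iff hq2'.ne' hb₂'.ne']; exact_mod_cast r2.symm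
  have hltR : (1 : ℝ) < ((s₁ : ℝ) / b₁) ^ M + ((s₂ : ℝ) / b₂) ^ N := by
    rw [← ea, ← eb]
    have h0 := (Rat.cast_lt (K := ℝ)).2 hlt
    push_cast at h0
    exact h0
  have hb1 : (s₂ : ℝ) / b₂ ≤ 1 - η := by rwa [div_le_iff₀ hb₂']
  have hbN : ((s₂ : ℝ) / b₂) ^ N ≤ 1 - η := by
    calc ((s₂ : ℝ) / b₂) ^ N ≤ ((s₂ : ℝ) / b₂) ^ 1 :=
          pow_le_pow_of_le_one (by positivity) (by linarith) hN
      _ ≤ 1 - η := by rw [pow_one]; exact hb1
  have ha1 : (s₁ : ℝ) / b₁ < 1 := by rw [div_lt_one hb₁']; exact_mod_cast hsb₁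
  refine ⟨M, Finset.mem_Ico.2 ⟨hM, ?_⟩, fun q hq => ?_⟩
  · by_contra h0
    have : ((s₁ : ℝ) / b₁) ^ M ≤ ((s₁ : ℝ) / b₁) ^ L :=
      pow_le_pow_of_le_one (by positivity) ha1.le (not_lt.1 h0)
    linarith
  · have hqp := Nat.prime_of_mem_primeFactors hq
    have hqd := Nat.dvd_of_mem_primeFactors hq
    have hne : b₂ * (b₁ * geo p₁ q₁ M) ≠ 0 := by
      have := geo_pos pp1 (pp1.trans lt1) hM
      positivity
    refine Nat.mem_primeFactors.2 ⟨hqp, ?_, hne⟩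
    by_cases k2 : q ∣ b₂
    · exact k2.mul_right _
    by_cases k1 : q ∣ b₁
    · exact (k1.mul_right _).mul_left _
    have hqp2 : q ∣ p₂ := by
      have : q ∣ p₂ * b₂ := by rw [← r2]; exact hqd.mul_right _
      exact (hqp.dvd_mul.1 this).resolve_right k2
    have hcop : Nat.Coprime q q₁ := by
      rw [Nat.Prime.coprime_iff_not_dvd hqp]
      intro h0
      exact k1 (by rw [← e2]; exact h0.mul_left _)
    exact ((hd1 q hqp2 hcop).mul_left _).mul_left _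

/-- pairs whose first member has all its primes among those of `b * n` -/
def PP (H n : ℕ) : Finset (ℕ × ℕ) :=
  {t ∈ Finset.Icc 1 H ×ˢ Finset.Icc 1 H | t.1.primeFactors ⊆ (t.2 * n).primeFactors}

lemma card_PP {ε C : ℝ} (hε : 0 ≤ ε) (hC : 0 ≤ C)
    (h : ∀ n H : ℕ, 1 ≤ n → (#{x ∈ Finset.Icc 1 H | x.primeFactors ⊆ n.primeFactors} : ℝ) ≤
      C * ((H : ℝ) * n) ^ ε) {H n : ℕ} (hn : 1 ≤ n) :
    (#(PP H n) : ℝ) ≤ H * (C * ((H : ℝ) * (H * n)) ^ ε) := by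
  have e : #(PP H n) = ∑ b ∈ Finset.Icc 1 H,
      #{x ∈ Finset.Icc 1 H | x.primeFactors ⊆ (b * n).primeFactors} := by
    unfold PP
    rw [Finset.card_filter, Finset.sum_product_right]
    simp only [Finset.card_filter]
  rw [e]
  push_cast
  calc ∑ b ∈ Finset.Icc 1 H, (#{x ∈ Finset.Icc 1 H | x.primeFactors ⊆ (b * n).primeFactors} : ℝ)
      ≤ ∑ b ∈ Finset.Icc 1 H, (C * ((H : ℝ) * (H * n)) ^ ε) := by
        refine Finset.sum_le_sum fun b hb => ?_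
        obtain ⟨hb1, hb2⟩ := Finset.mem_Icc.1 hb
        have hbn : 1 ≤ b * n := Nat.mul_pos hb1 hn
        refine (h (b * n) H hbn).trans ?_
        have hb2' : (b : ℝ) ≤ H := by exact_mod_cast hb2
        push_cast
        gcongr
    _ = H * (C * ((H : ℝ) * (H * n)) ^ ε) := by
        rw [Finset.sum_const, Nat.card_Icc, nsmul_eq_mul]
        simp

/-- `M₁` and `M₂` lie on the same side, `M₂` with margin `η`. -/
def SameSide (η : ℝ) (x₁ z₁ x₂ z₂ : ℕ) : Prop :=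
  (x₁ < z₁ ∧ (x₂ : ℝ) ≤ (1 - η) * z₂) ∨ (z₁ < x₁ ∧ (z₂ : ℝ) ≤ (1 - η) * x₂)

open Classical in
/-- **Counting theorem**. -/
theorem count {ε : ℝ} (hε : 0 < ε) : ∃ C : ℝ, ∀ (x₁ y₁ z₁ L H : ℕ) (η : ℝ), 0 < x₁ → 0 < z₁ →
    0 < η → (((min x₁ z₁ : ℕ) : ℝ) / ((max x₁ z₁ : ℕ) : ℝ)) ^ L ≤ η →
    (#{t ∈ Finset.Icc 1 H ×ˢ Finset.range (H + 1) ×ˢ Finset.Icc 1 H |
      SameSide η x₁ z₁ t.1 t.2.2 ∧ ¬ FreePair x₁ y₁ z₁ t.1 t.2.1 t.2.2} : ℝ) ≤
      C * (L + 1) ^ 2 * ((max x₁ z₁ : ℕ) : ℝ) ^ (ε * L) * ((H : ℝ) + 1) ^ (2 + ε) := by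
  set ε' : ℝ := min (ε / 2) 1 with hε'
  have hε'0 : 0 < ε' := lt_min (by linarith) one_pos
  have hε'1 : ε' ≤ 1 := min_le_right _ _
  have hε'2 : ε' ≤ ε / 2 := min_le_left _ _
  obtain ⟨C, hC, hR⟩ := rankin hε'0
  refine ⟨1 + C, fun x₁ y₁ z₁ L H η hx₁ hz₁ hη hL => ?_⟩
  set T := {t ∈ Finset.Icc 1 H ×ˢ Finset.range (H + 1) ×ˢ Finset.Icc 1 H |
      SameSide η x₁ z₁ t.1 t.2.2 ∧ ¬ FreePair x₁ y₁ z₁ t.1 t.2.1 t.2.2} with hT
  -- small and big parts of the first matrix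
  set s₁ := min x₁ z₁ with hs1
  set b₁ := max x₁ z₁ with hb1
  have hs₁ : 0 < s₁ := lt_min hx₁ hz₁
  have hb₁ : 0 < b₁ := lt_of_lt_of_le hx₁ (le_max_left _ _)
  set p := s₁ / s₁.gcd b₁ with hp
  set q := b₁ / s₁.gcd b₁ with hq
  have hG : (1 : ℝ) ≤ b₁ := by exact_mod_cast hb₁
  rcases eq_or_ne x₁ z₁ with hxz | hxz
  · have : T = ∅ := by
      rw [hT, Finset.filter_eq_empty_iff]
      rintro t - ⟨h, -⟩
      rcases h with ⟨h, -⟩ | ⟨h, -⟩ <;> omega
    rw [this]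
    simp only [Finset.card_empty, Nat.cast_zero]
    positivity
  have hsb : s₁ < b₁ := by omega
  have hL' : ((s₁ : ℝ) / b₁) ^ L ≤ η := hL
  -- the cover
  set A := T.filter (fun t => x₁ * t.2.1 + y₁ * t.2.2 = t.1 * y₁ + t.2.1 * z₁) with hA
  set B : ℕ → Finset (ℕ × ℕ × ℕ) := fun M => T.filter (fun t =>
    (x₁ < z₁ ∧ (t.1, t.2.2) ∈ PP H (b₁ * geo p q M)) ∨
    (z₁ < x₁ ∧ (t.2.2, t.1) ∈ PP H (b₁ * geo p q M))) with hB
  have hcov : T ⊆ A ∪ (Finset.Ico 1 L).biUnion B := by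
    intro t ht
    obtain ⟨ht1, ht2, ht3⟩ := Finset.mem_filter.1 ht
    rw [Finset.mem_product, Finset.mem_product] at ht1
    obtain ⟨i1, -, i3⟩ := ht1
    have j1 := (Finset.mem_Icc.1 i1).1
    have j3 := (Finset.mem_Icc.1 i3).1
    rcases ht2 with ⟨k1, k2⟩ | ⟨k1, k2⟩
    · have es : s₁ = x₁ := by omega
      have eb : b₁ = z₁ := by omega
      rcases bad_cases (s₂ := t.1) (b₂ := t.2.2) (Or.inl ⟨es, eb, rfl, rfl⟩) hs₁ hsb j1 hη k2 hL'
        ht3 with h | ⟨M, hM, h⟩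
      · exact Finset.mem_union_left _ (Finset.mem_filter.2 ⟨ht, h⟩)
      · refine Finset.mem_union_right _ (Finset.mem_biUnion.2 ⟨M, hM, Finset.mem_filter.2
          ⟨ht, Or.inl ⟨k1, ?_⟩⟩⟩)
        exact Finset.mem_filter.2 ⟨Finset.mem_product.2 ⟨i1, i3⟩, h⟩
    · have es : s₁ = z₁ := by omega
      have eb : b₁ = x₁ := by omega
      rcases bad_cases (s₂ := t.2.2) (b₂ := t.1) (Or.inr ⟨es, eb, rfl, rfl⟩) hs₁ hsb j3 hη k2 hL'
        ht3 with h | ⟨M, hM, h⟩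
      · exact Finset.mem_union_left _ (Finset.mem_filter.2 ⟨ht, h⟩)
      · refine Finset.mem_union_right _ (Finset.mem_biUnion.2 ⟨M, hM, Finset.mem_filter.2
          ⟨ht, Or.inr ⟨k1, ?_⟩⟩⟩)
        exact Finset.mem_filter.2 ⟨Finset.mem_product.2 ⟨i3, i1⟩, h⟩
  have hTmem : ∀ t ∈ T, t.1 ∈ Finset.Icc 1 H ∧ t.2.1 ∈ Finset.range (H + 1) ∧
      t.2.2 ∈ Finset.Icc 1 H := by
    intro t ht
    have := (Finset.mem_filter.1 ht).1
    rw [Finset.mem_product, Finset.mem_product] at this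
    exact this
  -- commuting pairs
  have hAcard : #A ≤ (H + 1) ^ 2 := by
    calc #A ≤ #(Finset.range (H + 1) ×ˢ Finset.range (H + 1)) := by
          refine Finset.card_le_card_of_injOn (fun t => (t.1, t.2.2)) (fun t ht => ?_) ?_
          · obtain ⟨i1, -, i3⟩ := hTmem t (Finset.mem_filter.1 ht).1
            have := (Finset.mem_Icc.1 i1).2
            have := (Finset.mem_Icc.1 i3).2
            refine Finset.mem_coe.2 (Finset.mem_product.2
              ⟨Finset.mem_range.2 ?_, Finset.mem_range.2 ?_⟩)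
            · show t.1 < H + 1
              omega
            · show t.2.2 < H + 1
              omega
          · intro t ht u hu htu
            have h1 := (Finset.mem_filter.1 (Finset.mem_coe.1 ht)).2
            have h2 := (Finset.mem_filter.1 (Finset.mem_coe.1 hu)).2
            obtain ⟨e1, e2⟩ := Prod.mk.inj htu
            rw [← e1, ← e2] at h2
            have h3 : x₁ * t.2.1 + u.2.1 * z₁ = x₁ * u.2.1 + t.2.1 * z₁ := by omega
            have h4 : t.2.1 = u.2.1 := by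
              rcases Nat.lt_trichotomy t.2.1 u.2.1 with h | h | h
              · exfalso
                obtain ⟨k, hk⟩ := Nat.exists_eq_add_of_lt h
                rw [hk] at h3
                have : (k + 1) * z₁ = x₁ * (k + 1) := by nlinarith
                rw [mul_comm x₁] at this
                exact hxz (Nat.eq_of_mul_eq_mul_left (by omega) this).symm
              · exact h
              · exfalso
                obtain ⟨k, hk⟩ := Nat.exists_eq_add_of_lt h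
                rw [hk] at h3
                have : (k + 1) * z₁ = x₁ * (k + 1) := by nlinarith
                rw [mul_comm x₁] at this
                exact hxz (Nat.eq_of_mul_eq_mul_left (by omega) this).symm
            exact Prod.ext e1 (Prod.ext h4 e2)
      _ = (H + 1) ^ 2 := by rw [Finset.card_product, Finset.card_range, sq]
  -- the other exceptions
  have hpp : 0 < p := Nat.div_pos (Nat.le_of_dvd hs₁ (Nat.gcd_dvd_left _ _))
    (Nat.gcd_pos_of_pos_left _ hs₁)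
  have hqq : 0 < q := Nat.div_pos (Nat.le_of_dvd hb₁ (Nat.gcd_dvd_right _ _))
    (Nat.gcd_pos_of_pos_left _ hs₁)
  have hpq : p ≤ q := Nat.div_le_div_right hsb.le
  have hqb : q ≤ b₁ := Nat.div_le_self _ _
  have hBcard : ∀ M ∈ Finset.Ico 1 L, (#(B M) : ℝ) ≤
      C * (L : ℝ) * (b₁ : ℝ) ^ (ε * L) * ((H : ℝ) + 1) ^ (2 + ε) := by
    intro M hM
    obtain ⟨hM1, hM2⟩ := Finset.mem_Ico.1 hM
    have hgeo : 1 ≤ b₁ * geo p q M := Nat.mul_pos hb₁ (geo_pos hpp hqq hM1)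
    have h1 : #(B M) ≤ (H + 1) * #(PP H (b₁ * geo p q M)) := by
      calc #(B M) ≤ #(Finset.range (H + 1) ×ˢ PP H (b₁ * geo p q M)) := by
            rcases lt_or_gt_of_ne hxz with hlt | hlt
            · refine Finset.card_le_card_of_injOn (fun t => (t.2.1, (t.1, t.2.2)))
                (fun t ht => ?_) ?_
              · obtain ⟨i0, i1⟩ := Finset.mem_filter.1 ht
                have i2 : (t.1, t.2.2) ∈ PP H (b₁ * geo p q M) := by
                  rcases i1 with ⟨-, h⟩ | ⟨h, -⟩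
                  · exact h
                  · omega
                exact Finset.mem_coe.2 (Finset.mem_product.2 ⟨(hTmem t i0).2.1, i2⟩)
              · intro t _ u _ htu
                obtain ⟨e1, e2⟩ := Prod.mk.inj htu
                obtain ⟨e3, e4⟩ := Prod.mk.inj e2
                exact Prod.ext e3 (Prod.ext e1 e4)
            · refine Finset.card_le_card_of_injOn (fun t => (t.2.1, (t.2.2, t.1)))
                (fun t ht => ?_) ?_
              · obtain ⟨i0, i1⟩ := Finset.mem_filter.1 ht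
                have i2 : (t.2.2, t.1) ∈ PP H (b₁ * geo p q M) := by
                  rcases i1 with ⟨h, -⟩ | ⟨-, h⟩
                  · omega
                  · exact h
                exact Finset.mem_coe.2 (Finset.mem_product.2 ⟨(hTmem t i0).2.1, i2⟩)
              · intro t _ u _ htu
                obtain ⟨e1, e2⟩ := Prod.mk.inj htu
                obtain ⟨e3, e4⟩ := Prod.mk.inj e2
                exact Prod.ext e4 (Prod.ext e1 e3)
        _ = (H + 1) * #(PP H (b₁ * geo p q M)) := by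
            rw [Finset.card_product, Finset.card_range]
    have h2 := card_PP hε'0.le (by linarith : (0 : ℝ) ≤ C) hR (H := H) hgeo
    have h3 : ((b₁ * geo p q M : ℕ) : ℝ) ≤ L * (b₁ : ℝ) ^ L := by
      have : b₁ * geo p q M ≤ L * b₁ ^ L := by
        calc b₁ * geo p q M ≤ b₁ * (M * q ^ (M - 1)) := Nat.mul_le_mul_left _ (geo_le hpq hM1)
          _ ≤ b₁ * (L * b₁ ^ (L - 1)) := by
              refine Nat.mul_le_mul_left _ (Nat.mul_le_mul hM2.le ?_)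
              exact (Nat.pow_le_pow_left hqb _).trans (Nat.pow_le_pow_right hb₁ (by omega))
          _ = L * b₁ ^ L := by
              obtain ⟨k, rfl⟩ : ∃ k, L = k + 1 := ⟨L - 1, by omega⟩
              simp only [Nat.add_sub_cancel, pow_succ]
              ring
      exact_mod_cast this
    have hH0 : (0 : ℝ) ≤ H := Nat.cast_nonneg H
    have hL1 : (1 : ℝ) ≤ L := by exact_mod_cast (by omega : 1 ≤ L)
    have hbL : (0 : ℝ) ≤ (b₁ : ℝ) ^ L := by positivity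
    have h4 : ((H : ℝ) * (H * (b₁ * geo p q M : ℕ))) ^ ε' ≤
        ((H : ℝ) + 1) ^ ε * ((L : ℝ) * (b₁ : ℝ) ^ (ε * L)) := by
      calc ((H : ℝ) * (H * (b₁ * geo p q M : ℕ))) ^ ε'
          ≤ ((((H : ℝ) + 1) ^ 2) * (L * (b₁ : ℝ) ^ L)) ^ ε' := by
            refine Real.rpow_le_rpow (by positivity) ?_ hε'0.le
            calc (H : ℝ) * (H * (b₁ * geo p q M : ℕ)) = (H * H) * ((b₁ * geo p q M : ℕ) : ℝ) := by
                  ring
              _ ≤ (((H : ℝ) + 1) ^ 2) * (L * (b₁ : ℝ) ^ L) := by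
                  refine mul_le_mul (by nlinarith) h3 (by positivity) (by positivity)
        _ = (((H : ℝ) + 1) ^ 2) ^ ε' * ((L : ℝ) ^ ε' * ((b₁ : ℝ) ^ L) ^ ε') := by
            rw [Real.mul_rpow (by positivity) (by positivity),
              Real.mul_rpow (by positivity) (by positivity)]
        _ ≤ ((H : ℝ) + 1) ^ ε * ((L : ℝ) * (b₁ : ℝ) ^ (ε * L)) := by
            have a1 : (((H : ℝ) + 1) ^ 2) ^ ε' ≤ ((H : ℝ) + 1) ^ ε := by
              rw [← Real.rpow_natCast, ← Real.rpow_mul (by positivity)]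
              refine Real.rpow_le_rpow_of_exponent_le (by linarith) ?_
              push_cast; linarith
            have a2 : (L : ℝ) ^ ε' ≤ L := by
              calc (L : ℝ) ^ ε' ≤ (L : ℝ) ^ (1 : ℝ) :=
                    Real.rpow_le_rpow_of_exponent_le hL1 hε'1
                _ = L := Real.rpow_one _
            have a3 : ((b₁ : ℝ) ^ L) ^ ε' ≤ (b₁ : ℝ) ^ (ε * L) := by
              rw [← Real.rpow_natCast, ← Real.rpow_mul (by positivity)]
              refine Real.rpow_le_rpow_of_exponent_le hG ?_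
              nlinarith
            gcongr
    have h5 : (#(B M) : ℝ) ≤ ((H : ℝ) + 1) * #(PP H (b₁ * geo p q M)) := by exact_mod_cast h1
    calc (#(B M) : ℝ) ≤ ((H : ℝ) + 1) * #(PP H (b₁ * geo p q M)) := h5
      _ ≤ ((H : ℝ) + 1) * (H * (C * ((H : ℝ) * (H * (b₁ * geo p q M : ℕ))) ^ ε')) := by gcongr
      _ ≤ ((H : ℝ) + 1) * (((H : ℝ) + 1) *
          (C * (((H : ℝ) + 1) ^ ε * ((L : ℝ) * (b₁ : ℝ) ^ (ε * L))))) := by
          gcongr
          linarith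
      _ = C * (L : ℝ) * (b₁ : ℝ) ^ (ε * L) * ((H : ℝ) + 1) ^ (2 + ε) := by
          rw [Real.rpow_add (by positivity)]
          norm_cast
          push_cast
          ring
  have f1 : (1 : ℝ) ≤ (b₁ : ℝ) ^ (ε * L) := Real.one_le_rpow hG (by positivity)
  have f2 : ((H : ℝ) + 1) ^ 2 ≤ ((H : ℝ) + 1) ^ (2 + ε) := by
    calc ((H : ℝ) + 1) ^ 2 = ((H : ℝ) + 1) ^ (2 : ℝ) := by norm_cast
      _ ≤ ((H : ℝ) + 1) ^ (2 + ε) :=
        Real.rpow_le_rpow_of_exponent_le (by linarith [(Nat.cast_nonneg H : (0 : ℝ) ≤ H)])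
          (by linarith)
  have hTle : #T ≤ #A + ∑ M ∈ Finset.Ico 1 L, #(B M) :=
    (Finset.card_le_card hcov).trans ((Finset.card_union_le _ _).trans
      (Nat.add_le_add_left Finset.card_biUnion_le _))
  set X : ℝ := (b₁ : ℝ) ^ (ε * L) * ((H : ℝ) + 1) ^ (2 + ε) with hX
  have hX0 : 0 ≤ X := by positivity
  have hX1 : ((H : ℝ) + 1) ^ 2 ≤ X := by
    calc ((H : ℝ) + 1) ^ 2 ≤ ((H : ℝ) + 1) ^ (2 + ε) := f2
      _ = 1 * ((H : ℝ) + 1) ^ (2 + ε) := (one_mul _).symm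
      _ ≤ X := by rw [hX]; gcongr
  have hC0 : 0 ≤ C := by linarith
  calc (#T : ℝ) ≤ #A + ∑ M ∈ Finset.Ico 1 L, (#(B M) : ℝ) := by exact_mod_cast hTle
    _ ≤ ((H : ℝ) + 1) ^ 2 + ∑ M ∈ Finset.Ico 1 L, (C * (L : ℝ) * X) := by
        refine add_le_add (by exact_mod_cast hAcard) (Finset.sum_le_sum fun M hM => ?_)
        refine (hBcard M hM).trans (le_of_eq ?_)
        rw [hX]; ring
    _ ≤ X + L * (C * (L : ℝ) * X) := by
        rw [Finset.sum_const, nsmul_eq_mul]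
        have : ((#(Finset.Ico 1 L) : ℕ) : ℝ) ≤ L := by
          rw [Nat.card_Ico]; exact_mod_cast (Nat.sub_le L 1)
        gcongr
    _ ≤ (1 + C) * (L + 1) ^ 2 * X := by
        have hL0 : (0 : ℝ) ≤ L := Nat.cast_nonneg L
        have : 1 + C * (L : ℝ) ^ 2 ≤ (1 + C) * (L + 1) ^ 2 := by nlinarith
        calc X + L * (C * (L : ℝ) * X) = (1 + C * (L : ℝ) ^ 2) * X := by ring
          _ ≤ (1 + C) * (L + 1) ^ 2 * X := by gcongr
    _ = (1 + C) * (L + 1) ^ 2 * (b₁ : ℝ) ^ (ε * L) * ((H : ℝ) + 1) ^ (2 + ε) := by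
        rw [hX]; ring

end Pool.Agent.H54.Free
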