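import Pool.Agent.H54.Free.Count

/-!
# Density of the non-free pairs
-/

set_option autoImplicit false
set_option maxHeartbeats 4000000

open Finset Filter

namespace Pool.Agent.H54.Free

/-- The matrices `(x y; 0 z)` with `1 ≤ x ≤ H`, `0 ≤ y ≤ H`, `1 ≤ z ≤ H`, as triples
`(x, y, z)`. -/
def Box (H : ℕ) : Finset (ℕ × ℕ × ℕ) :=
  Finset.Icc 1 H ×ˢ Finset.range (H + 1) ×ˢ Finset.Icc 1 H

/-- The two quotients `x / z` are both `< 1` or both `> 1`. -/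
def Same (M M' : ℕ × ℕ × ℕ) : Prop :=
  (M.1 < M.2.2 ∧ M'.1 < M'.2.2) ∨ (M.2.2 < M.1 ∧ M'.2.2 < M'.1)

/-- The two matrices freely generate a semigroup. -/
def IsFree (M M' : ℕ × ℕ × ℕ) : Prop := FreePair M.1 M.2.1 M.2.2 M'.1 M'.2.1 M'.2.2

lemma mem_Box {H : ℕ} {M : ℕ × ℕ × ℕ} :
    M ∈ Box H ↔ (1 ≤ M.1 ∧ M.1 ≤ H) ∧ M.2.1 ≤ H ∧ (1 ≤ M.2.2 ∧ M.2.2 ≤ H) := by
  simp only [Box, Finset.mem_product, Finset.mem_Icc, Finset.mem_range, Nat.lt_succ_iff]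

open Classical in
theorem fixed {ε : ℝ} (hε : 0 < ε) {M : ℕ × ℕ × ℕ} (h1 : 0 < M.1) (h2 : 0 < M.2.2)
    (h3 : M.1 ≠ M.2.2) : ∃ C : ℝ, ∀ H : ℕ,
      (#{M' ∈ Box H | Same M M' ∧ ¬ IsFree M M'} : ℝ) ≤ C * (H : ℝ) ^ (2 + ε) := by
  set s := min M.1 M.2.2 with hs
  set b := max M.1 M.2.2 with hb
  have hs0 : 0 < s := lt_min h1 h2
  have hsb : s < b := by omega
  have hb0 : 0 < b := hs0.trans hsb
  have hs0' : (0 : ℝ) < s := by exact_mod_cast hs0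
  have hb0' : (0 : ℝ) < b := by exact_mod_cast hb0
  have hb1' : (1 : ℝ) ≤ b := by exact_mod_cast hb0
  have hsb' : (s : ℝ) < b := by exact_mod_cast hsb
  set lam := Real.log ((b : ℝ) / s) with hlam
  have hlam0 : 0 < lam := Real.log_pos (by rw [one_lt_div hs0']; exact hsb')
  have hlb : 0 ≤ Real.log b := Real.log_nonneg hb1'
  set r := Real.log b / lam with hr
  have hr0 : 0 ≤ r := by positivity
  set ε₁ := ε / (3 + r) with hε₁
  have hε₁0 : 0 < ε₁ := by positivity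
  have hε₁e : ε₁ * (3 + r) = ε := by rw [hε₁]; field_simp
  obtain ⟨C, hC⟩ := count hε₁0
  set K₀ := 2 / (ε₁ * lam) + 2 with hK₀
  have hK₀0 : 0 < K₀ := by positivity
  refine ⟨|C| * K₀ ^ 2 * (b : ℝ) ^ ε₁ * 2 ^ (2 + ε₁), fun H => ?_⟩
  rcases Nat.eq_zero_or_pos H with rfl | hH
  · have : Box 0 = ∅ := rfl
    rw [this, Finset.filter_empty]
    simp only [Finset.card_empty, Nat.cast_zero]
    positivity
  have hH1 : (1 : ℝ) ≤ H := by exact_mod_cast hH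
  have hH0 : (0 : ℝ) < H := by linarith
  have hlH : 0 ≤ Real.log H := Real.log_nonneg hH1
  set L := ⌈Real.log H / lam⌉₊ with hL
  have hL1 : Real.log H / lam ≤ L := Nat.le_ceil _
  have hL2 : (L : ℝ) < Real.log H / lam + 1 := Nat.ceil_lt_add_one (by positivity)
  have hL3 : Real.log H ≤ L * lam := by rwa [div_le_iff₀ hlam0] at hL1
  have hpow : ((s : ℝ) / b) ^ L ≤ 1 / H := by
    have e : ((s : ℝ) / b) ^ L = Real.exp (-(L * lam)) := by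
      rw [← Real.exp_log (show (0 : ℝ) < (s : ℝ) / b by positivity), ← Real.exp_nat_mul]
      congr 1
      rw [Real.log_div hs0'.ne' hb0'.ne', hlam, Real.log_div hb0'.ne' hs0'.ne']
      ring
    have e' : (1 : ℝ) / H = Real.exp (-Real.log H) := by
      rw [Real.exp_neg, Real.exp_log hH0, one_div]
    rw [e, e']
    exact Real.exp_le_exp.2 (by linarith)
  have h4 := hC M.1 M.2.1 M.2.2 L H (1 / H) h1 h2 (by positivity) hpow
  have hsub : ({M' ∈ Box H | Same M M' ∧ ¬ IsFree M M'} : Finset (ℕ × ℕ × ℕ)) ⊆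
      {t ∈ Finset.Icc 1 H ×ˢ Finset.range (H + 1) ×ˢ Finset.Icc 1 H |
      SameSide (1 / H) M.1 M.2.2 t.1 t.2.2 ∧ ¬ FreePair M.1 M.2.1 M.2.2 t.1 t.2.1 t.2.2} := by
    intro t ht
    obtain ⟨t1, t2, t3⟩ := Finset.mem_filter.1 ht
    refine Finset.mem_filter.2 ⟨t1, ?_, t3⟩
    obtain ⟨⟨a1, a2⟩, a3, a4, a5⟩ := mem_Box.1 t1
    have key : ∀ u v : ℕ, u < v → v ≤ H → (u : ℝ) ≤ (1 - 1 / H) * v := by
      intro u v huv hv
      have e1 : (u : ℝ) + 1 ≤ v := by exact_mod_cast huv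
      have e2 : (v : ℝ) / H ≤ 1 := by rw [div_le_one hH0]; exact_mod_cast hv
      have e3 : (1 - 1 / (H : ℝ)) * v = v - v / H := by ring
      rw [e3]; linarith
    rcases t2 with ⟨k1, k2⟩ | ⟨k1, k2⟩
    · exact Or.inl ⟨k1, key _ _ k2 a5⟩
    · exact Or.inr ⟨k1, key _ _ k2 a2⟩
  have hcard : (#{M' ∈ Box H | Same M M' ∧ ¬ IsFree M M'} : ℝ) ≤
      C * (L + 1) ^ 2 * (b : ℝ) ^ (ε₁ * L) * ((H : ℝ) + 1) ^ (2 + ε₁) :=
    le_trans (by exact_mod_cast Finset.card_le_card hsub) h4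
  refine hcard.trans ?_
  have hC0 : C ≤ |C| := le_abs_self C
  have hCn : 0 ≤ |C| := abs_nonneg C
  have b1 : ((L : ℝ) + 1) ^ 2 ≤ K₀ ^ 2 * (H : ℝ) ^ ε₁ := by
    have c1 : Real.log H ≤ (H : ℝ) ^ (ε₁ / 2) / (ε₁ / 2) :=
      Real.log_le_rpow_div hH0.le (by positivity)
    have c2 : (1 : ℝ) ≤ (H : ℝ) ^ (ε₁ / 2) := Real.one_le_rpow hH1 (by positivity)
    have c3 : (L : ℝ) + 1 ≤ K₀ * (H : ℝ) ^ (ε₁ / 2) := by
      have c4 : Real.log H / lam ≤ 2 / (ε₁ * lam) * (H : ℝ) ^ (ε₁ / 2) := by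
        rw [div_le_iff₀ hlam0]
        refine c1.trans (le_of_eq ?_)
        field_simp
      have c5 : K₀ * (H : ℝ) ^ (ε₁ / 2) =
          2 / (ε₁ * lam) * (H : ℝ) ^ (ε₁ / 2) + 2 * (H : ℝ) ^ (ε₁ / 2) := by rw [hK₀]; ring
      rw [c5]
      linarith
    calc ((L : ℝ) + 1) ^ 2 ≤ (K₀ * (H : ℝ) ^ (ε₁ / 2)) ^ 2 := by gcongr
      _ = K₀ ^ 2 * (H : ℝ) ^ ε₁ := by
          rw [mul_pow, ← Real.rpow_natCast ((H : ℝ) ^ (ε₁ / 2)), ← Real.rpow_mul hH0.le]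
          congr 2
          push_cast; ring
  have b2 : (b : ℝ) ^ (ε₁ * L) ≤ (b : ℝ) ^ ε₁ * (H : ℝ) ^ (ε₁ * r) := by
    calc (b : ℝ) ^ (ε₁ * L) ≤ (b : ℝ) ^ (ε₁ * (Real.log H / lam + 1)) :=
          Real.rpow_le_rpow_of_exponent_le hb1' (by gcongr)
      _ = (b : ℝ) ^ ε₁ * (b : ℝ) ^ (ε₁ * (Real.log H / lam)) := by
          rw [← Real.rpow_add hb0']; ring_nf
      _ = (b : ℝ) ^ ε₁ * (H : ℝ) ^ (ε₁ * r) := by
          congr 1
          rw [Real.rpow_def_of_pos hb0', Real.rpow_def_of_pos hH0, hr]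
          congr 1
          ring
  have b3 : ((H : ℝ) + 1) ^ (2 + ε₁) ≤ 2 ^ (2 + ε₁) * (H : ℝ) ^ (2 + ε₁) := by
    rw [← Real.mul_rpow (by norm_num) hH0.le]
    exact Real.rpow_le_rpow (by positivity) (by linarith) (by positivity)
  calc C * (L + 1) ^ 2 * (b : ℝ) ^ (ε₁ * L) * ((H : ℝ) + 1) ^ (2 + ε₁)
      ≤ |C| * (K₀ ^ 2 * (H : ℝ) ^ ε₁) * ((b : ℝ) ^ ε₁ * (H : ℝ) ^ (ε₁ * r)) *
        (2 ^ (2 + ε₁) * (H : ℝ) ^ (2 + ε₁)) := by gcongr
    _ = |C| * K₀ ^ 2 * (b : ℝ) ^ ε₁ * 2 ^ (2 + ε₁) *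
        ((H : ℝ) ^ ε₁ * (H : ℝ) ^ (ε₁ * r) * (H : ℝ) ^ (2 + ε₁)) := by ring
    _ = |C| * K₀ ^ 2 * (b : ℝ) ^ ε₁ * 2 ^ (2 + ε₁) * (H : ℝ) ^ (ε₁ + ε₁ * r + (2 + ε₁)) := by
        rw [Real.rpow_add hH0 (ε₁ + ε₁ * r) (2 + ε₁), Real.rpow_add hH0 ε₁ (ε₁ * r)]
    _ ≤ |C| * K₀ ^ 2 * (b : ℝ) ^ ε₁ * 2 ^ (2 + ε₁) * (H : ℝ) ^ (2 + ε) := by
        refine mul_le_mul_of_nonneg_left (Real.rpow_le_rpow_of_exponent_le hH1 ?_) (by positivity)
        nlinarith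

lemma not_free_of_comm {M M' : ℕ × ℕ × ℕ}
    (h : M.1 * M'.2.1 + M.2.1 * M'.2.2 = M'.1 * M.2.1 + M'.2.1 * M.2.2) : ¬ IsFree M M' := by
  intro hf
  have := hf [false, true] [true, false] (by simp) (by simp) (by
    simp only [List.map_cons, List.map_nil, List.prod_cons, List.prod_nil, mul_one, if_true,
      Bool.false_eq_true, if_false]
    rw [Matrix.mul_fin_two, Matrix.mul_fin_two]
    simp only [mul_zero, zero_mul, add_zero, zero_add]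
    rw [h, mul_comm M.1, mul_comm M.2.2])
  simp at this

open Classical in
theorem lower {M : ℕ × ℕ × ℕ} (h1 : 0 < M.1) (h2 : 0 < M.2.2) (h3 : M.1 ≠ M.2.2) :
    ∃ c : ℝ, 0 < c ∧ ∃ H₀ : ℕ, ∀ H ≥ H₀,
      c * (H : ℝ) ^ 2 ≤ (#{M' ∈ Box H | Same M M' ∧ ¬ IsFree M M'} : ℝ) := by
  set m := M.1 + M.2.1 + M.2.2 with hm
  have hm0 : 0 < m := by omega
  have hm0' : (0 : ℝ) < m := by exact_mod_cast hm0
  refine ⟨1 / (12 * m), by positivity, 4 * m, fun H hH => ?_⟩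
  set s := min M.1 M.2.2 with hs
  set φ : ℕ × ℕ → ℕ × ℕ × ℕ := fun t => (t.1 + t.2 * (M.1 - s), t.2 * M.2.1,
    t.1 + t.2 * (M.2.2 - s)) with hφ
  have hcard : #(Finset.Icc 1 (H / 2) ×ˢ Finset.Icc 1 (H / (2 * m))) ≤
      #{M' ∈ Box H | Same M M' ∧ ¬ IsFree M M'} := by
    refine Finset.card_le_card_of_injOn φ (fun t ht => ?_) ?_
    · obtain ⟨t1, t2⟩ := Finset.mem_product.1 (Finset.mem_coe.1 ht)
      obtain ⟨t1, t3⟩ := Finset.mem_Icc.1 t1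
      obtain ⟨t2, t4⟩ := Finset.mem_Icc.1 t2
      have t5 : 2 * (t.2 * m) ≤ H := by
        calc 2 * (t.2 * m) ≤ 2 * ((H / (2 * m)) * m) := by gcongr
          _ = (H / (2 * m)) * (2 * m) := by ring
          _ ≤ H := Nat.div_mul_le_self _ _
      have t6 : t.2 * (M.1 - s) ≤ t.2 * m := Nat.mul_le_mul_left _ (by omega)
      have t7 : t.2 * (M.2.2 - s) ≤ t.2 * m := Nat.mul_le_mul_left _ (by omega)
      have t8 : t.2 * M.2.1 ≤ t.2 * m := Nat.mul_le_mul_left _ (by omega)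
      refine Finset.mem_coe.2 (Finset.mem_filter.2 ⟨mem_Box.2 ?_, ?_, ?_⟩)
      · simp only [hφ]
        omega
      · simp only [hφ, Same]
        rcases lt_or_gt_of_ne h3 with h | h
        · left
          refine ⟨h, ?_⟩
          have e1 : M.1 - s = 0 := by omega
          have e2 : 0 < M.2.2 - s := by omega
          have e3 : 0 < t.2 * (M.2.2 - s) := Nat.mul_pos t2 e2
          rw [e1]
          omega
        · right
          refine ⟨h, ?_⟩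
          have e1 : M.2.2 - s = 0 := by omega
          have e2 : 0 < M.1 - s := by omega
          have e3 : 0 < t.2 * (M.1 - s) := Nat.mul_pos t2 e2
          rw [e1]
          omega
      · apply not_free_of_comm
        simp only [hφ]
        obtain ⟨u, hu⟩ : ∃ u, M.1 = s + u := ⟨M.1 - s, by omega⟩
        obtain ⟨v, hv⟩ : ∃ v, M.2.2 = s + v := ⟨M.2.2 - s, by omega⟩
        rw [hu, hv, Nat.add_sub_cancel_left, Nat.add_sub_cancel_left]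
        ring
    · intro t ht u hu htu
      obtain ⟨t1, t2⟩ := Finset.mem_product.1 (Finset.mem_coe.1 ht)
      simp only [hφ, Prod.mk.injEq] at htu
      obtain ⟨e1, -, e3⟩ := htu
      rcases lt_or_gt_of_ne h3 with h | h
      · have e4 : M.1 - s = 0 := by omega
        have e5 : 0 < M.2.2 - s := by omega
        rw [e4, mul_zero, mul_zero, add_zero, add_zero] at e1
        rw [e1] at e3
        exact Prod.ext e1 (Nat.eq_of_mul_eq_mul_right e5 (Nat.add_left_cancel e3))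
      · have e4 : M.2.2 - s = 0 := by omega
        have e5 : 0 < M.1 - s := by omega
        rw [e4, mul_zero, mul_zero, add_zero, add_zero] at e3
        rw [e3] at e1
        exact Prod.ext e3 (Nat.eq_of_mul_eq_mul_right e5 (Nat.add_left_cancel e1))
  rw [Finset.card_product, Nat.card_Icc, Nat.card_Icc, Nat.add_sub_cancel, Nat.add_sub_cancel]
    at hcard
  have k1 : (H : ℝ) / 3 ≤ ((H / 2 : ℕ) : ℝ) := by
    have : H ≤ 3 * (H / 2) := by omega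
    have : (H : ℝ) ≤ 3 * ((H / 2 : ℕ) : ℝ) := by exact_mod_cast this
    linarith
  have k2 : (H : ℝ) / (4 * m) ≤ ((H / (2 * m) : ℕ) : ℝ) := by
    have e1 : H < (H / (2 * m) + 1) * (2 * m) := by
      rw [mul_comm]
      exact Nat.lt_mul_div_succ H (by positivity)
    have e2 : (H : ℝ) < (((H / (2 * m) : ℕ) : ℝ) + 1) * (2 * m) := by exact_mod_cast e1
    have e3 : (4 * m : ℝ) ≤ H := by exact_mod_cast hH
    rw [div_le_iff₀ (by positivity)]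
    nlinarith
  calc 1 / (12 * m) * (H : ℝ) ^ 2 = ((H : ℝ) / 3) * ((H : ℝ) / (4 * m)) := by
        field_simp; ring
    _ ≤ ((H / 2 : ℕ) : ℝ) * ((H / (2 * m) : ℕ) : ℝ) := by gcongr
    _ ≤ _ := by exact_mod_cast hcard

/-- diagonal quotient within `δ` of `1` -/
def Near (δ : ℝ) (M : ℕ × ℕ × ℕ) : Prop :=
  (M.1 < M.2.2 ∧ (1 - δ) * M.2.2 < M.1) ∨ (M.2.2 < M.1 ∧ (1 - δ) * M.1 < M.2.2)

lemma card_Box (H : ℕ) : (#(Box H) : ℝ) ≤ ((H : ℝ) + 1) ^ 3 := by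
  have : #(Box H) ≤ (H + 1) ^ 3 := by
    rw [Box, Finset.card_product, Finset.card_product, Finset.card_range, Nat.card_Icc,
      Nat.add_sub_cancel]
    calc H * ((H + 1) * H) ≤ (H + 1) * ((H + 1) * (H + 1)) := by gcongr <;> omega
      _ = (H + 1) ^ 3 := by ring
  exact_mod_cast this

open Classical in
lemma card_Near {δ : ℝ} (hδ : 0 < δ) (H : ℕ) :
    (#{M ∈ Box H | Near δ M} : ℝ) ≤ 2 * δ * ((H : ℝ) + 1) ^ 3 := by
  have hone : ∀ F : Finset (ℕ × ℕ × ℕ), #F ≤ #(Finset.range (H + 1) ×ˢ Finset.Icc 1 H ×ˢ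
      Finset.Icc 1 ⌊δ * H⌋₊) → (#F : ℝ) ≤ δ * ((H : ℝ) + 1) ^ 3 := by
    intro F hF
    rw [Finset.card_product, Finset.card_product, Finset.card_range, Nat.card_Icc, Nat.card_Icc,
      Nat.add_sub_cancel, Nat.add_sub_cancel] at hF
    have e1 : (#F : ℝ) ≤ ((H : ℝ) + 1) * (H * (⌊δ * H⌋₊ : ℝ)) := by exact_mod_cast hF
    have e2 : (⌊δ * H⌋₊ : ℝ) ≤ δ * H := Nat.floor_le (by positivity)
    calc (#F : ℝ) ≤ ((H : ℝ) + 1) * (H * (⌊δ * H⌋₊ : ℝ)) := e1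
      _ ≤ ((H : ℝ) + 1) * (((H : ℝ) + 1) * (δ * ((H : ℝ) + 1))) := by
          gcongr
          · linarith
          · exact e2.trans (by gcongr; linarith)
      _ = δ * ((H : ℝ) + 1) ^ 3 := by ring
  have hA : #({M ∈ Box H | M.1 < M.2.2 ∧ (1 - δ) * M.2.2 < M.1} : Finset (ℕ × ℕ × ℕ)) ≤
      #(Finset.range (H + 1) ×ˢ Finset.Icc 1 H ×ˢ Finset.Icc 1 ⌊δ * H⌋₊) := by
    refine Finset.card_le_card_of_injOn (fun M => (M.2.1, M.2.2, M.2.2 - M.1))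
      (fun M hM => ?_) ?_
    · obtain ⟨m1, m2, m3⟩ := Finset.mem_filter.1 (Finset.mem_coe.1 hM)
      obtain ⟨⟨a1, a2⟩, a3, a4, a5⟩ := mem_Box.1 m1
      refine Finset.mem_coe.2 (Finset.mem_product.2 ⟨Finset.mem_range.2 ?_,
        Finset.mem_product.2 ⟨Finset.mem_Icc.2 ⟨a4, a5⟩, Finset.mem_Icc.2 ⟨?_, ?_⟩⟩⟩)
      · show M.2.1 < H + 1
        omega
      · show 1 ≤ M.2.2 - M.1
        omega
      · refine Nat.le_floor ?_
        show ((M.2.2 - M.1 : ℕ) : ℝ) ≤ δ * H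
        rw [Nat.cast_sub m2.le]
        have : (M.2.2 : ℝ) ≤ H := by exact_mod_cast a5
        nlinarith
    · intro M hM M' hM' h
      obtain ⟨-, m2, -⟩ := Finset.mem_filter.1 (Finset.mem_coe.1 hM)
      obtain ⟨-, m3, -⟩ := Finset.mem_filter.1 (Finset.mem_coe.1 hM')
      simp only [Prod.mk.injEq] at h
      obtain ⟨h1, h2, h3⟩ := h
      exact Prod.ext (by omega) (Prod.ext h1 h2)
  have hB : #({M ∈ Box H | M.2.2 < M.1 ∧ (1 - δ) * M.1 < M.2.2} : Finset (ℕ × ℕ × ℕ)) ≤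
      #(Finset.range (H + 1) ×ˢ Finset.Icc 1 H ×ˢ Finset.Icc 1 ⌊δ * H⌋₊) := by
    refine Finset.card_le_card_of_injOn (fun M => (M.2.1, M.1, M.1 - M.2.2))
      (fun M hM => ?_) ?_
    · obtain ⟨m1, m2, m3⟩ := Finset.mem_filter.1 (Finset.mem_coe.1 hM)
      obtain ⟨⟨a1, a2⟩, a3, a4, a5⟩ := mem_Box.1 m1
      refine Finset.mem_coe.2 (Finset.mem_product.2 ⟨Finset.mem_range.2 ?_,
        Finset.mem_product.2 ⟨Finset.mem_Icc.2 ⟨a1, a2⟩, Finset.mem_Icc.2 ⟨?_, ?_⟩⟩⟩)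
      · show M.2.1 < H + 1
        omega
      · show 1 ≤ M.1 - M.2.2
        omega
      · refine Nat.le_floor ?_
        show ((M.1 - M.2.2 : ℕ) : ℝ) ≤ δ * H
        rw [Nat.cast_sub m2.le]
        have : (M.1 : ℝ) ≤ H := by exact_mod_cast a2
        nlinarith
    · intro M hM M' hM' h
      obtain ⟨-, m2, -⟩ := Finset.mem_filter.1 (Finset.mem_coe.1 hM)
      obtain ⟨-, m3, -⟩ := Finset.mem_filter.1 (Finset.mem_coe.1 hM')
      simp only [Prod.mk.injEq] at h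
      obtain ⟨h1, h2, h3⟩ := h
      exact Prod.ext h2 (Prod.ext h1 (by omega))
  have hle : #({M ∈ Box H | Near δ M} : Finset (ℕ × ℕ × ℕ)) ≤
      #({M ∈ Box H | M.1 < M.2.2 ∧ (1 - δ) * M.2.2 < M.1} : Finset (ℕ × ℕ × ℕ)) +
      #({M ∈ Box H | M.2.2 < M.1 ∧ (1 - δ) * M.1 < M.2.2} : Finset (ℕ × ℕ × ℕ)) := by
    refine (Finset.card_le_card ?_).trans (Finset.card_union_le _ _)
    intro M hM
    obtain ⟨m1, m2⟩ := Finset.mem_filter.1 hM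
    rcases m2 with m2 | m2
    · exact Finset.mem_union_left _ (Finset.mem_filter.2 ⟨m1, m2⟩)
    · exact Finset.mem_union_right _ (Finset.mem_filter.2 ⟨m1, m2⟩)
  have h1 := hone _ hA
  have h2 := hone _ hB
  have h3 : (#({M ∈ Box H | Near δ M} : Finset (ℕ × ℕ × ℕ)) : ℝ) ≤
      (#({M ∈ Box H | M.1 < M.2.2 ∧ (1 - δ) * M.2.2 < M.1} : Finset (ℕ × ℕ × ℕ)) : ℝ) +
      (#({M ∈ Box H | M.2.2 < M.1 ∧ (1 - δ) * M.1 < M.2.2} : Finset (ℕ × ℕ × ℕ)) : ℝ) := by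
    exact_mod_cast hle
  linarith

open Classical in
/-- bad pairs -/
noncomputable def bad (H : ℕ) : Finset ((ℕ × ℕ × ℕ) × (ℕ × ℕ × ℕ)) :=
  {P ∈ Box H ×ˢ Box H | Same P.1 P.2 ∧ ¬ IsFree P.1 P.2}

open Classical in
lemma card_bad {δ : ℝ} (hδ : 0 < δ) (hδ1 : δ < 1) : ∃ K : ℝ, 0 ≤ K ∧ ∀ H : ℕ,
    (#(bad H) : ℝ) ≤ K * ((H : ℝ) + 1) ^ (11 / 2 : ℝ) + 4 * δ * ((H : ℝ) + 1) ^ 6 := by
  obtain ⟨L, hL⟩ := exists_pow_lt_of_lt_one hδ (by linarith : 1 - δ < 1)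
  set ε : ℝ := 1 / (4 * (L + 1)) with hε
  have hε0 : 0 < ε := by positivity
  have hε1 : ε ≤ 1 / 4 := by
    rw [hε]
    have : (4 : ℝ) ≤ 4 * (L + 1) := by have : (0 : ℝ) ≤ L := Nat.cast_nonneg L
                                       linarith
    exact one_div_le_one_div_of_le (by norm_num) this
  have hεL : ε * L ≤ 1 / 4 := by
    rw [hε, div_mul_eq_mul_div, one_mul, div_le_iff₀ (by positivity)]
    linarith
  obtain ⟨C, hC⟩ := count hε0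
  refine ⟨|C| * (L + 1) ^ 2, by positivity, fun H => ?_⟩
  have hH0 : (0 : ℝ) ≤ H := Nat.cast_nonneg H
  have hH1 : (1 : ℝ) ≤ (H : ℝ) + 1 := by linarith
  -- one slice
  have hslice : ∀ M ∈ Box H, ¬ Near δ M →
      (#{M' ∈ Box H | ¬ Near δ M' ∧ Same M M' ∧ ¬ IsFree M M'} : ℝ) ≤
        |C| * (L + 1) ^ 2 * ((H : ℝ) + 1) ^ (5 / 2 : ℝ) := by
    intro M hM hnear
    obtain ⟨⟨a1, a2⟩, a3, a4, a5⟩ := mem_Box.1 hM
    by_cases hne : M.1 = M.2.2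
    · have : ({M' ∈ Box H | ¬ Near δ M' ∧ Same M M' ∧ ¬ IsFree M M'} : Finset (ℕ × ℕ × ℕ)) =
          ∅ := by
        rw [Finset.filter_eq_empty_iff]
        rintro M' - ⟨-, h, -⟩
        rcases h with ⟨h, -⟩ | ⟨h, -⟩ <;> omega
      rw [this]
      simp only [Finset.card_empty, Nat.cast_zero]
      positivity
    have hpow : (((min M.1 M.2.2 : ℕ) : ℝ) / ((max M.1 M.2.2 : ℕ) : ℝ)) ^ L ≤ δ := by
      have hq : ((min M.1 M.2.2 : ℕ) : ℝ) / ((max M.1 M.2.2 : ℕ) : ℝ) ≤ 1 - δ := by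
        have hpos : (0 : ℝ) < ((max M.1 M.2.2 : ℕ) : ℝ) := by
          have : 0 < max M.1 M.2.2 := lt_of_lt_of_le a1 (le_max_left _ _)
          exact_mod_cast this
        rw [div_le_iff₀ hpos]
        by_contra hcon
        push Not at hcon
        apply hnear
        rcases lt_or_gt_of_ne hne with h | h
        · rw [max_eq_right h.le, min_eq_left h.le] at hcon
          exact Or.inl ⟨h, hcon⟩
        · rw [max_eq_left h.le, min_eq_right h.le] at hcon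
          exact Or.inr ⟨h, hcon⟩
      calc _ ≤ (1 - δ) ^ L := pow_le_pow_left₀ (by positivity) hq L
        _ ≤ δ := hL.le
    have h4 := hC M.1 M.2.1 M.2.2 L H δ a1 a4 hδ hpow
    have hsub : ({M' ∈ Box H | ¬ Near δ M' ∧ Same M M' ∧ ¬ IsFree M M'} :
        Finset (ℕ × ℕ × ℕ)) ⊆
        {t ∈ Finset.Icc 1 H ×ˢ Finset.range (H + 1) ×ˢ Finset.Icc 1 H |
        SameSide δ M.1 M.2.2 t.1 t.2.2 ∧ ¬ FreePair M.1 M.2.1 M.2.2 t.1 t.2.1 t.2.2} := by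
      intro t ht
      obtain ⟨t1, t2, t3, t4⟩ := Finset.mem_filter.1 ht
      refine Finset.mem_filter.2 ⟨t1, ?_, t4⟩
      rcases t3 with ⟨k1, k2⟩ | ⟨k1, k2⟩
      · exact Or.inl ⟨k1, not_lt.1 fun h => t2 (Or.inl ⟨k2, h⟩)⟩
      · exact Or.inr ⟨k1, not_lt.1 fun h => t2 (Or.inr ⟨k2, h⟩)⟩
    have h5 : (#{M' ∈ Box H | ¬ Near δ M' ∧ Same M M' ∧ ¬ IsFree M M'} : ℝ) ≤
        C * (L + 1) ^ 2 * ((max M.1 M.2.2 : ℕ) : ℝ) ^ (ε * L) * ((H : ℝ) + 1) ^ (2 + ε) :=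
      le_trans (by exact_mod_cast Finset.card_le_card hsub) h4
    refine h5.trans ?_
    have hC0 : C ≤ |C| := le_abs_self C
    have hCn : 0 ≤ |C| := abs_nonneg C
    have hmax : ((max M.1 M.2.2 : ℕ) : ℝ) ≤ (H : ℝ) + 1 := by
      have : max M.1 M.2.2 ≤ H + 1 := max_le (by omega) (by omega)
      exact_mod_cast this
    have k1 : ((max M.1 M.2.2 : ℕ) : ℝ) ^ (ε * L) ≤ ((H : ℝ) + 1) ^ (1 / 4 : ℝ) :=
      (Real.rpow_le_rpow (Nat.cast_nonneg _) hmax (by positivity)).trans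
        (Real.rpow_le_rpow_of_exponent_le hH1 hεL)
    have k2 : ((H : ℝ) + 1) ^ (2 + ε) ≤ ((H : ℝ) + 1) ^ (9 / 4 : ℝ) :=
      Real.rpow_le_rpow_of_exponent_le hH1 (by linarith)
    calc C * (L + 1) ^ 2 * ((max M.1 M.2.2 : ℕ) : ℝ) ^ (ε * L) * ((H : ℝ) + 1) ^ (2 + ε)
        ≤ |C| * (L + 1) ^ 2 * ((H : ℝ) + 1) ^ (1 / 4 : ℝ) * ((H : ℝ) + 1) ^ (9 / 4 : ℝ) := by
          gcongr
      _ = |C| * (L + 1) ^ 2 * ((H : ℝ) + 1) ^ (5 / 2 : ℝ) := by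
          rw [mul_assoc, ← Real.rpow_add (by positivity)]
          norm_num
  -- the cover
  set G : Finset ((ℕ × ℕ × ℕ) × (ℕ × ℕ × ℕ)) := {P ∈ Box H ×ˢ Box H |
    ¬ Near δ P.1 ∧ ¬ Near δ P.2 ∧ Same P.1 P.2 ∧ ¬ IsFree P.1 P.2} with hG
  have hcov : bad H ⊆ G ∪ (({M ∈ Box H | Near δ M} ×ˢ Box H) ∪
      (Box H ×ˢ {M ∈ Box H | Near δ M})) := by
    intro P hP
    obtain ⟨p1, p2, p3⟩ := Finset.mem_filter.1 hP
    obtain ⟨p4, p5⟩ := Finset.mem_product.1 p1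
    by_cases n1 : Near δ P.1
    · exact Finset.mem_union_right _ (Finset.mem_union_left _
        (Finset.mem_product.2 ⟨Finset.mem_filter.2 ⟨p4, n1⟩, p5⟩))
    by_cases n2 : Near δ P.2
    · exact Finset.mem_union_right _ (Finset.mem_union_right _
        (Finset.mem_product.2 ⟨p4, Finset.mem_filter.2 ⟨p5, n2⟩⟩))
    exact Finset.mem_union_left _ (Finset.mem_filter.2 ⟨p1, n1, n2, p2, p3⟩)
  have hGcard : (#G : ℝ) ≤ |C| * (L + 1) ^ 2 * ((H : ℝ) + 1) ^ (11 / 2 : ℝ) := by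
    have e : #G = ∑ M ∈ Box H, #{M' ∈ Box H |
        ¬ Near δ M ∧ ¬ Near δ M' ∧ Same M M' ∧ ¬ IsFree M M'} := by
      rw [hG, Finset.card_filter, Finset.sum_product]
      simp only [Finset.card_filter]
    rw [e]
    push_cast
    calc ∑ M ∈ Box H, (#{M' ∈ Box H |
          ¬ Near δ M ∧ ¬ Near δ M' ∧ Same M M' ∧ ¬ IsFree M M'} : ℝ)
        ≤ ∑ M ∈ Box H, (|C| * (L + 1) ^ 2 * ((H : ℝ) + 1) ^ (5 / 2 : ℝ)) := by
          refine Finset.sum_le_sum fun M hM => ?_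
          by_cases hn : Near δ M
          · have : ({M' ∈ Box H | ¬ Near δ M ∧ ¬ Near δ M' ∧ Same M M' ∧ ¬ IsFree M M'} :
                Finset (ℕ × ℕ × ℕ)) = ∅ := by
              rw [Finset.filter_eq_empty_iff]
              rintro M' - ⟨h, -⟩
              exact h hn
            rw [this]
            simp only [Finset.card_empty, Nat.cast_zero]
            positivity
          · refine le_trans ?_ (hslice M hM hn)
            have : #({M' ∈ Box H | ¬ Near δ M ∧ ¬ Near δ M' ∧ Same M M' ∧ ¬ IsFree M M'} :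
                Finset (ℕ × ℕ × ℕ)) ≤
                #({M' ∈ Box H | ¬ Near δ M' ∧ Same M M' ∧ ¬ IsFree M M'} :
                Finset (ℕ × ℕ × ℕ)) :=
              Finset.card_le_card (Finset.monotone_filter_right _ fun M' _ h => h.2)
            exact_mod_cast this
      _ = #(Box H) * (|C| * (L + 1) ^ 2 * ((H : ℝ) + 1) ^ (5 / 2 : ℝ)) := by
          rw [Finset.sum_const, nsmul_eq_mul]
      _ ≤ ((H : ℝ) + 1) ^ 3 * (|C| * (L + 1) ^ 2 * ((H : ℝ) + 1) ^ (5 / 2 : ℝ)) := by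
          have := card_Box H
          gcongr
      _ = |C| * (L + 1) ^ 2 * (((H : ℝ) + 1) ^ (3 : ℝ) * ((H : ℝ) + 1) ^ (5 / 2 : ℝ)) := by
          rw [show (3 : ℝ) = ((3 : ℕ) : ℝ) by norm_num, Real.rpow_natCast]
          ring
      _ = |C| * (L + 1) ^ 2 * ((H : ℝ) + 1) ^ (11 / 2 : ℝ) := by
          rw [← Real.rpow_add (by positivity)]
          norm_num
  have h6 : (#(bad H) : ℝ) ≤ #G + (#({M ∈ Box H | Near δ M} : Finset (ℕ × ℕ × ℕ)) * #(Box H) +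
      #(Box H) * #({M ∈ Box H | Near δ M} : Finset (ℕ × ℕ × ℕ))) := by
    have h7 := (Finset.card_le_card hcov).trans ((Finset.card_union_le _ _).trans
      (Nat.add_le_add_left (Finset.card_union_le _ _) _))
    rw [Finset.card_product, Finset.card_product] at h7
    exact_mod_cast h7
  have h8 := card_Near hδ H
  have h9 := card_Box H
  have h10 : (#({M ∈ Box H | Near δ M} : Finset (ℕ × ℕ × ℕ)) : ℝ) * #(Box H) ≤
      2 * δ * ((H : ℝ) + 1) ^ 3 * ((H : ℝ) + 1) ^ 3 := by gcongr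
  have h11 : 2 * δ * ((H : ℝ) + 1) ^ 3 * ((H : ℝ) + 1) ^ 3 = 2 * δ * ((H : ℝ) + 1) ^ 6 := by ring
  rw [h11] at h10
  have h12 : (#(Box H) : ℝ) * #({M ∈ Box H | Near δ M} : Finset (ℕ × ℕ × ℕ)) ≤
      2 * δ * ((H : ℝ) + 1) ^ 6 := by rw [mul_comm]; exact h10
  linarith

/-- **The non-free pairs on the same side have density zero.** -/
theorem density : Tendsto (fun H : ℕ => (#(bad H) : ℝ) / (H : ℝ) ^ 6) atTop (nhds 0) := by
  rw [Metric.tendsto_atTop]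
  intro e he
  set δ : ℝ := min (1 / 2) (e / 1024) with hδ
  have hδ0 : 0 < δ := lt_min (by norm_num) (by positivity)
  have hδ1 : δ < 1 := (min_le_left _ _).trans_lt (by norm_num)
  have hδe : δ ≤ e / 1024 := min_le_right _ _
  obtain ⟨K, hK, hb⟩ := card_bad hδ0 hδ1
  have hlim : Tendsto (fun H : ℕ => (64 * K + 1) * (H : ℝ) ^ (-(1 / 2 : ℝ))) atTop (nhds 0) := by
    have := (tendsto_rpow_neg_atTop (show (0 : ℝ) < 1 / 2 by norm_num)).comp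
      tendsto_natCast_atTop_atTop
    simpa using this.const_mul (64 * K + 1)
  obtain ⟨N, hN⟩ := (Metric.tendsto_atTop.1 hlim) (e / 2) (by positivity)
  refine ⟨max N 1, fun H hH => ?_⟩
  have hHN : N ≤ H := (le_max_left _ _).trans hH
  have hH1 : 1 ≤ H := (le_max_right _ _).trans hH
  have hH1' : (1 : ℝ) ≤ H := by exact_mod_cast hH1
  have hH0 : (0 : ℝ) < H := by linarith
  have h1 := hN H hHN
  rw [Real.dist_eq, sub_zero, abs_of_nonneg (by positivity)] at h1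
  rw [Real.dist_eq, sub_zero, abs_of_nonneg (by positivity), div_lt_iff₀ (by positivity)]
  refine (hb H).trans_lt ?_
  have h2 : (H : ℝ) + 1 ≤ 2 * H := by linarith
  have h3 : ((H : ℝ) + 1) ^ (11 / 2 : ℝ) ≤ 64 * (H : ℝ) ^ (11 / 2 : ℝ) := by
    calc ((H : ℝ) + 1) ^ (11 / 2 : ℝ) ≤ (2 * H) ^ (11 / 2 : ℝ) :=
          Real.rpow_le_rpow (by positivity) h2 (by norm_num)
      _ = 2 ^ (11 / 2 : ℝ) * (H : ℝ) ^ (11 / 2 : ℝ) := Real.mul_rpow (by norm_num) hH0.le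
      _ ≤ 2 ^ (6 : ℝ) * (H : ℝ) ^ (11 / 2 : ℝ) := by
          gcongr
          · norm_num
          · norm_num
      _ = 64 * (H : ℝ) ^ (11 / 2 : ℝ) := by norm_num
  have h4 : ((H : ℝ) + 1) ^ 6 ≤ 64 * (H : ℝ) ^ 6 := by
    calc ((H : ℝ) + 1) ^ 6 ≤ (2 * H) ^ 6 := by gcongr
      _ = 64 * (H : ℝ) ^ 6 := by ring
  have h5 : (H : ℝ) ^ (11 / 2 : ℝ) = (H : ℝ) ^ (-(1 / 2 : ℝ)) * (H : ℝ) ^ 6 := by
    rw [← Real.rpow_natCast (H : ℝ) 6, ← Real.rpow_add hH0]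
    norm_num
  have h6 : 0 < (H : ℝ) ^ (-(1 / 2 : ℝ)) := by positivity
  calc K * ((H : ℝ) + 1) ^ (11 / 2 : ℝ) + 4 * δ * ((H : ℝ) + 1) ^ 6
      ≤ K * (64 * (H : ℝ) ^ (11 / 2 : ℝ)) + 4 * (e / 1024) * (64 * (H : ℝ) ^ 6) := by gcongr
    _ = (64 * K * (H : ℝ) ^ (-(1 / 2 : ℝ)) + e / 4) * (H : ℝ) ^ 6 := by rw [h5]; ring
    _ ≤ ((64 * K + 1) * (H : ℝ) ^ (-(1 / 2 : ℝ)) + e / 4) * (H : ℝ) ^ 6 := by
        gcongr
        linarith
    _ < e * (H : ℝ) ^ 6 := by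
        apply mul_lt_mul_of_pos_right _ (by positivity)
        linarith

end Pool.Agent.H54.Free
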