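import Pool.Agent.H54.Free.Core

/-!
# Pairs of upper triangular matrices over the natural numbers
-/

set_option autoImplicit false

namespace Pool.Agent.H54.Free

/-- The matrices `(x₁ y₁; 0 z₁)` and `(x₂ y₂; 0 z₂)` generate a free semigroup: products of
different nonempty words are different (`false` stands for the first matrix). -/
def FreePair (x₁ y₁ z₁ x₂ y₂ z₂ : ℕ) : Prop :=
  ∀ w₁ w₂ : List Bool, w₁ ≠ [] → w₂ ≠ [] →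
    (w₁.map (fun b => if b then (!![x₂, y₂; 0, z₂] : Matrix (Fin 2) (Fin 2) ℕ)
      else (!![x₁, y₁; 0, z₁] : Matrix (Fin 2) (Fin 2) ℕ))).prod =
    (w₂.map (fun b => if b then (!![x₂, y₂; 0, z₂] : Matrix (Fin 2) (Fin 2) ℕ)
      else (!![x₁, y₁; 0, z₁] : Matrix (Fin 2) (Fin 2) ℕ))).prod → w₁ = w₂

lemma prod_act {x₁ y₁ z₁ x₂ y₂ z₂ : ℕ} (hz₁ : 0 < z₁) (hz₂ : 0 < z₂) (w : List Bool) :
    ∃ X Y Z : ℕ, 0 < Z ∧
      (w.map (fun b => if b then (!![x₂, y₂; 0, z₂] : Matrix (Fin 2) (Fin 2) ℕ)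
        else (!![x₁, y₁; 0, z₁] : Matrix (Fin 2) (Fin 2) ℕ))).prod = !![X, Y; 0, Z] ∧
      ∀ t : ℚ, act (fun t => ((x₁ : ℚ) * t + y₁) / z₁) (fun t => ((x₂ : ℚ) * t + y₂) / z₂) w t =
        (X * t + Y) / Z := by
  induction w with
  | nil =>
    refine ⟨1, 0, 1, one_pos, ?_, fun t => by simp [act]⟩
    simp [Matrix.one_fin_two]
  | cons c w ih =>
    obtain ⟨X, Y, Z, hZ, h1, h2⟩ := ih
    have hZ' : (Z : ℚ) ≠ 0 := by exact_mod_cast hZ.ne'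
    have h1' : (z₁ : ℚ) ≠ 0 := by exact_mod_cast hz₁.ne'
    have h2' : (z₂ : ℚ) ≠ 0 := by exact_mod_cast hz₂.ne'
    cases c
    · refine ⟨x₁ * X, x₁ * Y + y₁ * Z, z₁ * Z, Nat.mul_pos hz₁ hZ, ?_, fun t => ?_⟩
      · rw [List.map_cons, List.prod_cons, h1]
        simp
      · simp only [act, Bool.false_eq_true, if_false, h2]
        push_cast
        field_simp
        ring
    · refine ⟨x₂ * X, x₂ * Y + y₂ * Z, z₂ * Z, Nat.mul_pos hz₂ hZ, ?_, fun t => ?_⟩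
      · rw [List.map_cons, List.prod_cons, h1]
        simp
      · simp only [act, if_true, h2]
        push_cast
        field_simp
        ring

lemma act_eq_of_prod_eq {x₁ y₁ z₁ x₂ y₂ z₂ : ℕ} (hz₁ : 0 < z₁) (hz₂ : 0 < z₂) {w w' : List Bool}
    (h : (w.map (fun b => if b then (!![x₂, y₂; 0, z₂] : Matrix (Fin 2) (Fin 2) ℕ)
      else (!![x₁, y₁; 0, z₁] : Matrix (Fin 2) (Fin 2) ℕ))).prod =
    (w'.map (fun b => if b then (!![x₂, y₂; 0, z₂] : Matrix (Fin 2) (Fin 2) ℕ)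
      else (!![x₁, y₁; 0, z₁] : Matrix (Fin 2) (Fin 2) ℕ))).prod) (t : ℚ) :
    act (fun t => ((x₁ : ℚ) * t + y₁) / z₁) (fun t => ((x₂ : ℚ) * t + y₂) / z₂) w t =
      act (fun t => ((x₁ : ℚ) * t + y₁) / z₁) (fun t => ((x₂ : ℚ) * t + y₂) / z₂) w' t := by
  obtain ⟨X, Y, Z, hZ, h1, h2⟩ := prod_act (x₁ := x₁) (y₁ := y₁) (x₂ := x₂) (y₂ := y₂) hz₁ hz₂ w
  obtain ⟨X', Y', Z', hZ', h1', h2'⟩ :=
    prod_act (x₁ := x₁) (y₁ := y₁) (x₂ := x₂) (y₂ := y₂) hz₁ hz₂ w'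
  rw [h1, h1'] at h
  have e1 : X = X' := by simpa using congrFun (congrFun h 0) 0
  have e2 : Y = Y' := by simpa using congrFun (congrFun h 0) 1
  have e3 : Z = Z' := by simpa using congrFun (congrFun h 1) 1
  rw [h2, h2', e1, e2, e3]

/-- Passing to the normalised maps. -/
lemma act_normal {x₁ y₁ z₁ x₂ y₂ z₂ : ℕ} (hz₁ : 0 < z₁) (hz₂ : 0 < z₂) (h₁ : x₁ ≠ z₁)
    (h₂ : x₂ ≠ z₂) (hnc : x₁ * y₂ + y₁ * z₂ ≠ x₂ * y₁ + y₂ * z₁) {w w' : List Bool}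
    (h : ∀ t : ℚ,
      act (fun t => ((x₁ : ℚ) * t + y₁) / z₁) (fun t => ((x₂ : ℚ) * t + y₂) / z₂) w t =
      act (fun t => ((x₁ : ℚ) * t + y₁) / z₁) (fun t => ((x₂ : ℚ) * t + y₂) / z₂) w' t) (s : ℚ) :
    act (fM ((x₁ : ℚ) / z₁)) (gM ((x₂ : ℚ) / z₂)) w s =
      act (fM ((x₁ : ℚ) / z₁)) (gM ((x₂ : ℚ) / z₂)) w' s := by
  have hz1 : (z₁ : ℚ) ≠ 0 := by exact_mod_cast hz₁.ne'
  have hz2 : (z₂ : ℚ) ≠ 0 := by exact_mod_cast hz₂.ne'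
  have k1 : (z₁ : ℚ) - x₁ ≠ 0 := sub_ne_zero.2 (by exact_mod_cast h₁.symm)
  have k2 : (z₂ : ℚ) - x₂ ≠ 0 := sub_ne_zero.2 (by exact_mod_cast h₂.symm)
  set t₁ : ℚ := y₁ / (z₁ - x₁) with ht1
  set t₂ : ℚ := y₂ / (z₂ - x₂) with ht2
  have hne : t₂ - t₁ ≠ 0 := by
    intro h0
    apply hnc
    have h1 : t₂ = t₁ := sub_eq_zero.1 h0
    rw [ht1, ht2, div_eq_div_iff k2 k1] at h1
    have : (x₁ : ℚ) * y₂ + y₁ * z₂ = x₂ * y₁ + y₂ * z₁ := by linarith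
    exact_mod_cast this
  have hf : ∀ t : ℚ, (((x₁ : ℚ) * t + y₁) / z₁ - t₁) / (t₂ - t₁) =
      fM ((x₁ : ℚ) / z₁) ((t - t₁) / (t₂ - t₁)) := by
    intro t
    have e : (y₁ : ℚ) = t₁ * (z₁ - x₁) := by rw [ht1]; field_simp
    simp only [add_zero]
    rw [e]
    field_simp
    ring
  have hg : ∀ t : ℚ, (((x₂ : ℚ) * t + y₂) / z₂ - t₁) / (t₂ - t₁) =
      gM ((x₂ : ℚ) / z₂) ((t - t₁) / (t₂ - t₁)) := by
    intro t
    have e : (y₂ : ℚ) = t₂ * (z₂ - x₂) := by rw [ht2]; field_simp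
    rw [e]
    field_simp
    ring
  have e : s = ((s * (t₂ - t₁) + t₁) - t₁) / (t₂ - t₁) := by field_simp; ring
  rw [e, ← act_conj (fun t => (t - t₁) / (t₂ - t₁)) hf hg,
    ← act_conj (fun t => (t - t₁) / (t₂ - t₁)) hf hg, h]

/-- Passing to the inverse maps. -/
lemma act_reverse {a b : ℚ} (ha : a ≠ 0) (hb : b ≠ 0) {w w' : List Bool}
    (h : ∀ s, act (fM a) (gM b) w s = act (fM a) (gM b) w' s) (s : ℚ) :
    act (fM a⁻¹) (gM b⁻¹) w.reverse s = act (fM a⁻¹) (gM b⁻¹) w'.reverse s := by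
  have f1 : ∀ s, fM a⁻¹ (fM a s) = s := fun s => by simp only [add_zero]; field_simp
  have f2 : ∀ s, fM a (fM a⁻¹ s) = s := fun s => by simp only [add_zero]; field_simp
  have g1 : ∀ s, gM b⁻¹ (gM b s) = s := fun s => by field_simp; ring
  have g2 : ∀ s, gM b (gM b⁻¹ s) = s := fun s => by field_simp; ring
  have e : act (fM a) (gM b) w (act (fM a⁻¹) (gM b⁻¹) w.reverse s) = s := by
    have := act_inverse f2 g2 w.reverse s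
    rwa [List.reverse_reverse] at this
  have h1 := act_inverse f1 g1 w' (act (fM a⁻¹) (gM b⁻¹) w.reverse s)
  rw [← h, e] at h1
  exact h1.symm

lemma padicNorm_nat_le_one (p : ℕ) [Fact p.Prime] (n : ℕ) : padicNorm p (n : ℚ) ≤ 1 := by
  have := padicNorm.of_int (p := p) (n : ℤ)
  simpa using this

lemma padicNorm_nat_eq_one {p : ℕ} [Fact p.Prime] {n : ℕ} (h : ¬ p ∣ n) :
    padicNorm p (n : ℚ) = 1 := (padicNorm.nat_eq_one_iff n).2 h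

/-- From norms to divisibility. -/
lemma dvd_sum {p₁ q₁ p₂ q₂ M d : ℕ} (hM : 1 ≤ M) (hq₁ : 0 < q₁) (hc₂ : Nat.Coprime p₂ q₂)
    (hd : d ∣ p₂) (hdq : Nat.Coprime d q₁)
    (h : ∀ (p : ℕ) [Fact p.Prime], padicNorm p ((p₁ : ℚ) / q₁) ≤ 1 →
      padicNorm p ((p₂ : ℚ) / q₂) ≤ 1 →
      padicNorm p (∑ i ∈ Finset.range M, ((p₁ : ℚ) / q₁) ^ i) ≤ padicNorm p ((p₂ : ℚ) / q₂)) :
    d ∣ ∑ i ∈ Finset.range M, p₁ ^ i * q₁ ^ (M - 1 - i) := by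
  rw [Nat.dvd_iff_prime_pow_dvd_dvd]
  intro p k hp hk
  rcases Nat.eq_zero_or_pos k with rfl | hk0
  · simp
  have : Fact p.Prime := ⟨hp⟩
  have hpd : p ∣ d := (dvd_pow_self p hk0.ne').trans hk
  have hq1 : ¬ p ∣ q₁ := fun h0 => hp.one_lt.ne' (Nat.eq_one_of_dvd_coprimes hdq hpd h0)
  have hq2 : ¬ p ∣ q₂ := fun h0 => hp.one_lt.ne' (Nat.eq_one_of_dvd_coprimes hc₂ (hpd.trans hd) h0)
  have na : padicNorm p ((p₁ : ℚ) / q₁) ≤ 1 := by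
    rw [padicNorm.div, padicNorm_nat_eq_one hq1, div_one]; exact padicNorm_nat_le_one p p₁
  have nb : padicNorm p ((p₂ : ℚ) / q₂) = padicNorm p p₂ := by
    rw [padicNorm.div, padicNorm_nat_eq_one hq2, div_one]
  have h1 := h p na (by rw [nb]; exact padicNorm_nat_le_one p p₂)
  rw [nb] at h1
  have e : ((∑ i ∈ Finset.range M, p₁ ^ i * q₁ ^ (M - 1 - i) : ℕ) : ℚ) =
      (q₁ : ℚ) ^ (M - 1) * ∑ i ∈ Finset.range M, ((p₁ : ℚ) / q₁) ^ i := by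
    have hq : (q₁ : ℚ) ≠ 0 := by exact_mod_cast hq₁.ne'
    push_cast
    rw [Finset.mul_sum]
    refine Finset.sum_congr rfl fun i hi => ?_
    have hi' : i ≤ M - 1 := by have := Finset.mem_range.1 hi; omega
    rw [div_pow, pow_sub₀ _ hq hi']
    field_simp
  have h2 : padicNorm p ((∑ i ∈ Finset.range M, p₁ ^ i * q₁ ^ (M - 1 - i) : ℕ) : ℚ) ≤
      padicNorm p p₂ := by
    rw [e, padicNorm.mul]
    exact (mul_le_of_le_one_left (padicNorm.nonneg _)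
      (norm_pow_le_one (padicNorm_nat_le_one p q₁) _)).trans h1
  have h3 : padicNorm p (p₂ : ℚ) ≤ (p : ℚ) ^ (-(k : ℤ)) := by
    have : ((p ^ k : ℕ) : ℤ) ∣ ((p₂ : ℕ) : ℤ) := by exact_mod_cast hk.trans hd
    have := (padicNorm.dvd_iff_norm_le (p := p) (n := k) (z := (p₂ : ℤ))).1 this
    simpa using this
  have h4 := (padicNorm.dvd_iff_norm_le (p := p) (n := k)
    (z := ((∑ i ∈ Finset.range M, p₁ ^ i * q₁ ^ (M - 1 - i) : ℕ) : ℤ))).2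
      (by exact_mod_cast h2.trans h3)
  exact_mod_cast h4

/-- **Obstruction to freeness failing.** -/
theorem obstruction {x₁ y₁ z₁ x₂ y₂ z₂ p₁ q₁ p₂ q₂ : ℕ}
    (hx₁ : 0 < x₁) (hz₁ : 0 < z₁) (hx₂ : 0 < x₂) (hz₂ : 0 < z₂)
    (hp₁ : 0 < p₁) (hpq₁ : p₁ < q₁) (hc₁ : Nat.Coprime p₁ q₁)
    (hp₂ : 0 < p₂) (hpq₂ : p₂ < q₂) (hc₂ : Nat.Coprime p₂ q₂)
    (hr : (x₁ * q₁ = p₁ * z₁ ∧ x₂ * q₂ = p₂ * z₂) ∨ (z₁ * q₁ = p₁ * x₁ ∧ z₂ * q₂ = p₂ * x₂))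
    (hnc : (!![x₁, y₁; 0, z₁] : Matrix (Fin 2) (Fin 2) ℕ) * !![x₂, y₂; 0, z₂] ≠
      !![x₂, y₂; 0, z₂] * !![x₁, y₁; 0, z₁])
    (hnf : ¬ FreePair x₁ y₁ z₁ x₂ y₂ z₂) :
    ∃ M N : ℕ, 1 ≤ M ∧ 1 ≤ N ∧ 1 < ((p₁ : ℚ) / q₁) ^ M + ((p₂ : ℚ) / q₂) ^ N ∧
      (∀ d, d ∣ p₂ → Nat.Coprime d q₁ → d ∣ ∑ i ∈ Finset.range M, p₁ ^ i * q₁ ^ (M - 1 - i)) ∧
      ∀ d, d ∣ p₁ → Nat.Coprime d q₂ → d ∣ ∑ i ∈ Finset.range N, p₂ ^ i * q₂ ^ (N - 1 - i) := by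
  have hq1 : (0 : ℚ) < q₁ := by exact_mod_cast hp₁.trans hpq₁
  have hq2 : (0 : ℚ) < q₂ := by exact_mod_cast hp₂.trans hpq₂
  have hp1' : (0 : ℚ) < p₁ := by exact_mod_cast hp₁
  have hp2' : (0 : ℚ) < p₂ := by exact_mod_cast hp₂
  have hx1' : (0 : ℚ) < x₁ := by exact_mod_cast hx₁
  have hx2' : (0 : ℚ) < x₂ := by exact_mod_cast hx₂
  have hz1' : (0 : ℚ) < z₁ := by exact_mod_cast hz₁
  have hz2' : (0 : ℚ) < z₂ := by exact_mod_cast hz₂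
  have ha : (0 : ℚ) < p₁ / q₁ := by positivity
  have hb : (0 : ℚ) < p₂ / q₂ := by positivity
  have ha1 : (p₁ : ℚ) / q₁ < 1 := by rw [div_lt_one hq1]; exact_mod_cast hpq₁
  have hb1 : (p₂ : ℚ) / q₂ < 1 := by rw [div_lt_one hq2]; exact_mod_cast hpq₂
  have hnc' : x₁ * y₂ + y₁ * z₂ ≠ x₂ * y₁ + y₂ * z₁ := by
    intro h0
    apply hnc
    rw [Matrix.mul_fin_two, Matrix.mul_fin_two]
    simp only [mul_zero, zero_mul, add_zero, zero_add]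
    rw [h0, mul_comm x₁ x₂, mul_comm z₁ z₂]
  unfold FreePair at hnf
  push Not at hnf
  obtain ⟨w, w', -, -, hw, hne⟩ := hnf
  have hw1 := act_eq_of_prod_eq hz₁ hz₂ hw
  have fin : ∀ u u' : List Bool, u ≠ u' →
      (∀ s, act (fM ((p₁ : ℚ) / q₁)) (gM ((p₂ : ℚ) / q₂)) u s =
        act (fM ((p₁ : ℚ) / q₁)) (gM ((p₂ : ℚ) / q₂)) u' s) →
      ∃ M N : ℕ, 1 ≤ M ∧ 1 ≤ N ∧ 1 < ((p₁ : ℚ) / q₁) ^ M + ((p₂ : ℚ) / q₂) ^ N ∧
      (∀ d, d ∣ p₂ → Nat.Coprime d q₁ → d ∣ ∑ i ∈ Finset.range M, p₁ ^ i * q₁ ^ (M - 1 - i)) ∧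
      ∀ d, d ∣ p₁ → Nat.Coprime d q₂ → d ∣ ∑ i ∈ Finset.range N, p₂ ^ i * q₂ ^ (N - 1 - i) := by
    intro u u' hu huu
    obtain ⟨M, N, hM, hN, h1, h2⟩ := core ha ha1 hb hb1 hu huu
    refine ⟨M, N, hM, hN, h1, fun d hd hdq => ?_, fun d hd hdq => ?_⟩
    · exact dvd_sum hM (hp₁.trans hpq₁) hc₂ hd hdq fun p _ pa pb => (h2 p pa pb).1
    · exact dvd_sum hN (hp₂.trans hpq₂) hc₁ hd hdq fun p _ pb pa => (h2 p pa pb).2
  rcases hr with ⟨r1, r2⟩ | ⟨r1, r2⟩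
  · have e1 : (x₁ : ℚ) / z₁ = p₁ / q₁ := by
      rw [div_eq_div_iff hz1'.ne' hq1.ne']; exact_mod_cast r1
    have e2 : (x₂ : ℚ) / z₂ = p₂ / q₂ := by
      rw [div_eq_div_iff hz2'.ne' hq2.ne']; exact_mod_cast r2
    have n1 : x₁ ≠ z₁ := by
      rintro rfl; rw [div_self hz1'.ne'] at e1; linarith
    have n2 : x₂ ≠ z₂ := by
      rintro rfl; rw [div_self hz2'.ne'] at e2; linarith
    have := act_normal hz₁ hz₂ n1 n2 hnc' hw1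
    rw [e1, e2] at this
    exact fin w w' hne this
  · have e1 : ((x₁ : ℚ) / z₁)⁻¹ = p₁ / q₁ := by
      rw [inv_div, div_eq_div_iff hx1'.ne' hq1.ne']; exact_mod_cast r1
    have e2 : ((x₂ : ℚ) / z₂)⁻¹ = p₂ / q₂ := by
      rw [inv_div, div_eq_div_iff hx2'.ne' hq2.ne']; exact_mod_cast r2
    have n1 : x₁ ≠ z₁ := by
      rintro rfl; rw [div_self hz1'.ne', inv_one] at e1; linarith
    have n2 : x₂ ≠ z₂ := by
      rintro rfl; rw [div_self hz2'.ne', inv_one] at e2; linarith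
    have h1 := act_normal hz₁ hz₂ n1 n2 hnc' hw1
    have h2 := act_reverse (div_pos hx1' hz1').ne' (div_pos hx2' hz2').ne' h1
    rw [e1, e2] at h2
    exact fin w.reverse w'.reverse (fun h0 => hne (List.reverse_injective h0)) h2

end Pool.Agent.H54.Free
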