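import Pool.Agent.H54.Free.Mat

/-!
# Relations, staircase regions and the product formula
-/

set_option autoImplicit false
set_option maxHeartbeats 4000000

namespace Pool.Agent.H54.Free

/-- number of letters `false` before the `j`-th letter `true` (all of them if there is none) -/
def row : List Bool → ℕ → ℕ
  | [], _ => 0
  | false :: w, j => row w j + 1
  | true :: _, 0 => 0
  | true :: w, j + 1 => row w j

lemma row_mono (w : List Bool) : Monotone (row w) := by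
  refine monotone_nat_of_le_succ fun j => ?_
  induction w generalizing j with
  | nil => simp [row]
  | cons c w ih =>
    cases c
    · simp only [row]; exact Nat.succ_le_succ (ih j)
    · cases j
      · simp [row]
      · simp only [row]; exact ih _

lemma act_zero (a b : ℚ) (w : List Bool) :
    act (fun t => a * t + 0) (fun t => b * t + 1) w 0 =
      ∑ j ∈ Finset.range (w.count true), b ^ j * a ^ row w j := by
  induction w with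
  | nil => simp [act]
  | cons c w ih =>
    cases c
    · rw [List.count_cons_of_ne (by decide)]
      simp only [act, Bool.false_eq_true, if_false, row]
      rw [ih, Finset.mul_sum, add_zero]
      exact Finset.sum_congr rfl fun j _ => by ring
    · rw [List.count_cons_self, Finset.sum_range_succ']
      simp only [act, if_true, row]
      rw [ih, Finset.mul_sum, pow_zero, pow_zero, mul_one]
      congr 1
      exact Finset.sum_congr rfl fun j _ => by ring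

/-- Total weight of the cells `(i, j)` with `j < y`, `s j ≤ i < t j`. -/
def weight (p₁ q₁ p₂ q₂ x y : ℕ) (s t : ℕ → ℕ) : ℕ :=
  ∑ j ∈ Finset.range y, ∑ i ∈ Finset.Ico (s j) (t j),
    p₁ ^ i * q₁ ^ (x - 1 - i) * (p₂ ^ j * q₂ ^ (y - 1 - j))

lemma tele (p q : ℤ) {s t x : ℕ} (hst : s ≤ t) (htx : t ≤ x) :
    (q - p) * ∑ i ∈ Finset.Ico s t, p ^ i * q ^ (x - 1 - i) =
      p ^ s * q ^ (x - s) - p ^ t * q ^ (x - t) := by
  induction t, hst using Nat.le_induction with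
  | base => simp
  | succ t hst ih =>
    rw [Finset.sum_Ico_succ_top hst, mul_add, ih (by omega)]
    obtain ⟨d, rfl⟩ : ∃ d, x = t + 1 + d := ⟨x - (t + 1), by omega⟩
    have e1 : t + 1 + d - t = d + 1 := by omega
    have e2 : t + 1 + d - 1 - t = d := by omega
    have e3 : t + 1 + d - (t + 1) = d := by omega
    rw [e1, e2, e3]
    ring

lemma dvd_diff (p q : ℤ) {m n m' n' : ℕ} (h : m + n = m' + n') :
    (q - p) ∣ p ^ m * q ^ n - p ^ m' * q ^ n' := by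
  have h0 : q ≡ p [ZMOD (q - p)] := (Int.modEq_iff_dvd.2 ⟨-1, by ring⟩)
  have h1 : ∀ m n : ℕ, p ^ m * q ^ n ≡ p ^ (m + n) [ZMOD (q - p)] := fun m n => by
    rw [pow_add]; exact (Int.ModEq.refl _).mul (h0.pow n)
  have h2 := (h1 m' n').trans ((h1 m n).trans (by rw [h])).symm
  exact (Int.modEq_iff_dvd.1 h2)

/-- **Staircase criterion for sequences.** -/
theorem stair {p₁ q₁ p₂ q₂ k : ℕ} {s t : ℕ → ℕ}
    (hp₁ : 0 < p₁) (hpq₁ : p₁ < q₁) (hc₁ : Nat.Coprime p₁ q₁)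
    (hp₂ : 0 < p₂) (hpq₂ : p₂ < q₂) (hc₂ : Nat.Coprime p₂ q₂)
    (hs : Monotone s) (ht : Monotone t) (h0 : s 0 < t 0) (hk : 0 < k)
    (h : ∑ j ∈ Finset.range k, ((p₂ : ℚ) / q₂) ^ j * ((p₁ : ℚ) / q₁) ^ s j =
      ∑ j ∈ Finset.range k, ((p₂ : ℚ) / q₂) ^ j * ((p₁ : ℚ) / q₁) ^ t j) :
    ∃ x y : ℕ, 1 ≤ x ∧ 1 ≤ y ∧ (∀ j < y, s j ≤ t j ∧ t j ≤ x) ∧
      weight p₁ q₁ p₂ q₂ x y s t * ((q₁ - p₁) * (q₂ - p₂)) < p₁ ^ x * p₂ ^ y ∧
      ∀ P₁ P₂ : ℕ, P₁ ∣ p₁ → Nat.Coprime P₁ q₂ → P₂ ∣ p₂ → Nat.Coprime P₂ q₁ →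
        P₁ ^ x * P₂ ^ y ∣ weight p₁ q₁ p₂ q₂ x y s t := by
  have hq₁ : 0 < q₁ := hp₁.trans hpq₁
  have hq₂ : 0 < q₂ := hp₂.trans hpq₂
  have q1 : (0 : ℚ) < q₁ := by exact_mod_cast hq₁
  have q2 : (0 : ℚ) < q₂ := by exact_mod_cast hq₂
  have p1 : (0 : ℚ) < p₁ := by exact_mod_cast hp₁
  have p2 : (0 : ℚ) < p₂ := by exact_mod_cast hp₂
  have ha : (0 : ℚ) < p₁ / q₁ := by positivity
  have hb : (0 : ℚ) < p₂ / q₂ := by positivity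
  have ha1 : (p₁ : ℚ) / q₁ < 1 := by rw [div_lt_one q1]; exact_mod_cast hpq₁
  -- a row of the opposite sign
  have hex : ∃ j, j < k ∧ t j < s j := by
    by_contra hcon
    push Not at hcon
    refine absurd h (ne_of_gt ?_)
    refine Finset.sum_lt_sum (fun j hj => ?_) ⟨0, Finset.mem_range.2 hk, ?_⟩
    · refine mul_le_mul_of_nonneg_left ?_ (by positivity)
      exact pow_le_pow_of_le_one ha.le ha1.le (hcon j (Finset.mem_range.1 hj))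
    · refine mul_lt_mul_of_pos_left ?_ (by positivity)
      exact pow_lt_pow_right_of_lt_one₀ ha ha1 h0
  classical
  obtain ⟨y, ⟨hyk, hyt⟩, hmin⟩ : ∃ y, (y < k ∧ t y < s y) ∧ ∀ j < y, s j ≤ t j := by
    refine ⟨Nat.find hex, Nat.find_spec hex, fun j hj => ?_⟩
    have h1 := Nat.find_min hex hj
    by_contra h2
    exact h1 ⟨hj.trans (Nat.find_spec hex).1, not_le.1 h2⟩
  have hy1 : 1 ≤ y := by
    rcases Nat.eq_zero_or_pos y with rfl | h1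
    · omega
    · exact h1
  set x := t y with hx
  have hx1 : 1 ≤ x := by
    have := ht (Nat.zero_le y)
    omega
  set X := s k + t k with hX
  have sX : ∀ j < k, s j ≤ X := fun j hj => (hs hj.le).trans (by omega)
  have tX : ∀ j < k, t j ≤ X := fun j hj => (ht hj.le).trans (by omega)
  have xX : x ≤ X := tX y hyk
  set D : ℕ → ℤ := fun j => (p₂ : ℤ) ^ j * (q₂ : ℤ) ^ (k - 1 - j) *
    ((p₁ : ℤ) ^ s j * (q₁ : ℤ) ^ (X - s j) - (p₁ : ℤ) ^ t j * (q₁ : ℤ) ^ (X - t j)) with hD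
  have hsum : ∑ j ∈ Finset.range k, D j = 0 := by
    have e : ((∑ j ∈ Finset.range k, D j : ℤ) : ℚ) = (q₂ : ℚ) ^ (k - 1) * (q₁ : ℚ) ^ X *
        (∑ j ∈ Finset.range k, ((p₂ : ℚ) / q₂) ^ j * ((p₁ : ℚ) / q₁) ^ s j -
          ∑ j ∈ Finset.range k, ((p₂ : ℚ) / q₂) ^ j * ((p₁ : ℚ) / q₁) ^ t j) := by
      rw [← Finset.sum_sub_distrib, Finset.mul_sum, Int.cast_sum]
      refine Finset.sum_congr rfl fun j hj => ?_
      have hj' := Finset.mem_range.1 hj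
      simp only [hD]
      push_cast
      rw [pow_sub₀ _ q2.ne' (by omega : j ≤ k - 1), pow_sub₀ _ q1.ne' (sX j hj'),
        pow_sub₀ _ q1.ne' (tX j hj'), div_pow, div_pow, div_pow]
      field_simp
    rw [h, sub_self, mul_zero] at e
    exact_mod_cast e
  rw [← Finset.sum_range_add_sum_Ico _ hyk.le] at hsum
  set W := weight p₁ q₁ p₂ q₂ x y s t with hW
  have htx : ∀ j < y, t j ≤ x := fun j hj => ht hj.le
  have hlow : ∑ j ∈ Finset.range y, D j =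
      (q₂ : ℤ) ^ (k - y) * (q₁ : ℤ) ^ (X - x) * (((q₁ : ℤ) - p₁) * W) := by
    have e : (((q₁ : ℤ) - p₁) * W) = ∑ j ∈ Finset.range y, (p₂ : ℤ) ^ j * (q₂ : ℤ) ^ (y - 1 - j) *
        ((p₁ : ℤ) ^ s j * (q₁ : ℤ) ^ (x - s j) - (p₁ : ℤ) ^ t j * (q₁ : ℤ) ^ (x - t j)) := by
      rw [hW, weight, Nat.cast_sum, Finset.mul_sum]
      refine Finset.sum_congr rfl fun j hj => ?_
      have hj' := Finset.mem_range.1 hj
      rw [← tele (p₁ : ℤ) q₁ (hmin j hj') (htx j hj'), ← Finset.sum_mul]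
      push_cast
      ring
    rw [e, Finset.mul_sum]
    refine Finset.sum_congr rfl fun j hj => ?_
    have hj' := Finset.mem_range.1 hj
    have k1 : k - 1 - j = (k - y) + (y - 1 - j) := by omega
    have k2 : X - s j = (X - x) + (x - s j) := by
      have := hmin j hj'
      have := htx j hj'
      omega
    have k3 : X - t j = (X - x) + (x - t j) := by
      have := htx j hj'
      omega
    simp only [hD]
    rw [k1, k2, k3]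
    ring
  have hup : ∀ j ∈ Finset.Ico y k, (p₁ : ℤ) ^ x * (p₂ : ℤ) ^ y * ((q₁ : ℤ) - p₁) ∣ D j := by
    intro j hj
    obtain ⟨j1, j2⟩ := Finset.mem_Ico.1 hj
    have i1 : x ≤ t j := ht j1
    have i2 : x ≤ s j := hyt.le.trans (hs j1)
    obtain ⟨c, hc⟩ := dvd_diff (p₁ : ℤ) q₁ (m := s j - x) (n := X - s j) (m' := t j - x)
      (n' := X - t j) (by have := sX j j2; have := tX j j2; omega)
    refine ⟨(p₂ : ℤ) ^ (j - y) * (q₂ : ℤ) ^ (k - 1 - j) * c, ?_⟩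
    simp only [hD]
    have e1 : (p₁ : ℤ) ^ s j = (p₁ : ℤ) ^ x * (p₁ : ℤ) ^ (s j - x) := by
      rw [← pow_add, Nat.add_sub_cancel' i2]
    have e2 : (p₁ : ℤ) ^ t j = (p₁ : ℤ) ^ x * (p₁ : ℤ) ^ (t j - x) := by
      rw [← pow_add, Nat.add_sub_cancel' i1]
    have e3 : (p₂ : ℤ) ^ j = (p₂ : ℤ) ^ y * (p₂ : ℤ) ^ (j - y) := by
      rw [← pow_add, Nat.add_sub_cancel' j1]
    rw [e1, e2, e3]
    linear_combination (p₁ : ℤ) ^ x * (p₂ : ℤ) ^ y * (p₂ : ℤ) ^ (j - y) * (q₂ : ℤ) ^ (k - 1 - j) * hc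
  have hd1 : (0 : ℤ) < (q₁ : ℤ) - p₁ := sub_pos.2 (by exact_mod_cast hpq₁)
  have hd2 : (0 : ℤ) < (q₂ : ℤ) - p₂ := sub_pos.2 (by exact_mod_cast hpq₂)
  have hdiv : p₁ ^ x * p₂ ^ y ∣ q₂ ^ (k - y) * q₁ ^ (X - x) * W := by
    obtain ⟨m, hm⟩ := Finset.dvd_sum hup
    have : ((p₁ : ℤ) ^ x * (p₂ : ℤ) ^ y) ∣ (q₂ : ℤ) ^ (k - y) * (q₁ : ℤ) ^ (X - x) * W := by
      refine ⟨-m, ?_⟩
      have e : ((q₁ : ℤ) - p₁) * ((q₂ : ℤ) ^ (k - y) * (q₁ : ℤ) ^ (X - x) * W) =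
          ((q₁ : ℤ) - p₁) * ((p₁ : ℤ) ^ x * (p₂ : ℤ) ^ y * -m) := by
        rw [hlow, hm] at hsum
        linear_combination hsum
      exact mul_left_cancel₀ hd1.ne' e
    exact_mod_cast this
  refine ⟨x, y, hx1, hy1, fun j hj => ⟨hmin j hj, htx j hj⟩, ?_, fun P₁ P₂ h1 h2 h3 h4 => ?_⟩
  · -- the real place
    have hle : ∀ j ∈ Finset.Ico y k, -D j ≤
        (p₂ : ℤ) ^ j * (q₂ : ℤ) ^ (k - 1 - j) * ((p₁ : ℤ) ^ x * (q₁ : ℤ) ^ (X - x)) := by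
      intro j hj
      obtain ⟨j1, j2⟩ := Finset.mem_Ico.1 hj
      have i1 : x ≤ t j := ht j1
      have i3 := tX j j2
      have e1 : (p₁ : ℤ) ^ t j = (p₁ : ℤ) ^ x * (p₁ : ℤ) ^ (t j - x) := by
        rw [← pow_add, Nat.add_sub_cancel' i1]
      have e2 : (q₁ : ℤ) ^ (X - x) = (q₁ : ℤ) ^ (t j - x) * (q₁ : ℤ) ^ (X - t j) := by
        rw [← pow_add]; congr 1; omega
      have e3 : (p₁ : ℤ) ^ (t j - x) ≤ (q₁ : ℤ) ^ (t j - x) :=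
        pow_le_pow_left₀ (by positivity) (by exact_mod_cast hpq₁.le) _
      have e4 : (p₁ : ℤ) ^ t j * (q₁ : ℤ) ^ (X - t j) ≤ (p₁ : ℤ) ^ x * (q₁ : ℤ) ^ (X - x) := by
        rw [e1, e2]
        have : (0 : ℤ) ≤ (p₁ : ℤ) ^ x * (q₁ : ℤ) ^ (X - t j) := by positivity
        nlinarith
      have e5 : (0 : ℤ) ≤ (p₁ : ℤ) ^ s j * (q₁ : ℤ) ^ (X - s j) := by positivity
      have e6 : (0 : ℤ) ≤ (p₂ : ℤ) ^ j * (q₂ : ℤ) ^ (k - 1 - j) := by positivity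
      simp only [hD]
      nlinarith
    have h2 : (q₂ : ℤ) ^ (k - y) * (q₁ : ℤ) ^ (X - x) * (((q₁ : ℤ) - p₁) * W) ≤
        (∑ j ∈ Finset.Ico y k, (p₂ : ℤ) ^ j * (q₂ : ℤ) ^ (k - 1 - j)) *
          ((p₁ : ℤ) ^ x * (q₁ : ℤ) ^ (X - x)) := by
      rw [← hlow, Finset.sum_mul]
      calc ∑ j ∈ Finset.range y, D j = ∑ j ∈ Finset.Ico y k, -D j := by
            rw [Finset.sum_neg_distrib]; linarith
        _ ≤ _ := Finset.sum_le_sum hle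
    have h3 := tele (p₂ : ℤ) q₂ hyk.le (le_refl k)
    rw [Nat.sub_self, pow_zero, mul_one] at h3
    have h4 : (0 : ℤ) < (p₂ : ℤ) ^ k := by positivity
    have h5 : (0 : ℤ) < (p₁ : ℤ) ^ x * (q₁ : ℤ) ^ (X - x) := by positivity
    have h6 : ((q₂ : ℤ) - p₂) * ((q₂ : ℤ) ^ (k - y) * (q₁ : ℤ) ^ (X - x) *
        (((q₁ : ℤ) - p₁) * W)) < (q₂ : ℤ) ^ (k - y) * (q₁ : ℤ) ^ (X - x) *
          ((p₁ : ℤ) ^ x * (p₂ : ℤ) ^ y) := by
      calc ((q₂ : ℤ) - p₂) * ((q₂ : ℤ) ^ (k - y) * (q₁ : ℤ) ^ (X - x) * (((q₁ : ℤ) - p₁) * W))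
          ≤ ((q₂ : ℤ) - p₂) * ((∑ j ∈ Finset.Ico y k, (p₂ : ℤ) ^ j * (q₂ : ℤ) ^ (k - 1 - j)) *
          ((p₁ : ℤ) ^ x * (q₁ : ℤ) ^ (X - x))) := mul_le_mul_of_nonneg_left h2 hd2.le
        _ = ((p₂ : ℤ) ^ y * (q₂ : ℤ) ^ (k - y) - (p₂ : ℤ) ^ k) *
            ((p₁ : ℤ) ^ x * (q₁ : ℤ) ^ (X - x)) := by rw [← h3]; ring
        _ < ((p₂ : ℤ) ^ y * (q₂ : ℤ) ^ (k - y)) * ((p₁ : ℤ) ^ x * (q₁ : ℤ) ^ (X - x)) := by
            apply mul_lt_mul_of_pos_right _ h5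
            linarith
        _ = _ := by ring
    have h7 : ((W : ℤ) * (((q₁ : ℤ) - p₁) * ((q₂ : ℤ) - p₂))) < (p₁ : ℤ) ^ x * (p₂ : ℤ) ^ y := by
      have h8 : (0 : ℤ) < (q₂ : ℤ) ^ (k - y) * (q₁ : ℤ) ^ (X - x) := by positivity
      have h9 : ((q₂ : ℤ) ^ (k - y) * (q₁ : ℤ) ^ (X - x)) *
          ((W : ℤ) * (((q₁ : ℤ) - p₁) * ((q₂ : ℤ) - p₂))) <
          ((q₂ : ℤ) ^ (k - y) * (q₁ : ℤ) ^ (X - x)) * ((p₁ : ℤ) ^ x * (p₂ : ℤ) ^ y) := by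
        calc _ = ((q₂ : ℤ) - p₂) * ((q₂ : ℤ) ^ (k - y) * (q₁ : ℤ) ^ (X - x) *
              (((q₁ : ℤ) - p₁) * W)) := by ring
          _ < _ := h6
      exact lt_of_mul_lt_mul_left h9 h8.le
    have h10 : ((W * ((q₁ - p₁) * (q₂ - p₂)) : ℕ) : ℤ) < ((p₁ ^ x * p₂ ^ y : ℕ) : ℤ) := by
      push_cast [Nat.cast_sub hpq₁.le, Nat.cast_sub hpq₂.le]
      exact h7
    exact_mod_cast h10
  · have c1 : Nat.Coprime P₁ q₁ := Nat.Coprime.coprime_dvd_left h1 hc₁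
    have c2 : Nat.Coprime P₂ q₂ := Nat.Coprime.coprime_dvd_left h3 hc₂
    have c3 : Nat.Coprime (P₁ ^ x * P₂ ^ y) (q₂ ^ (k - y) * q₁ ^ (X - x)) := by
      refine Nat.Coprime.mul_left ?_ ?_
      · exact Nat.Coprime.mul_right (h2.pow _ _) (c1.pow _ _)
      · exact Nat.Coprime.mul_right (c2.pow _ _) (h4.pow _ _)
    exact c3.dvd_of_dvd_mul_left ((Nat.mul_dvd_mul (pow_dvd_pow_of_dvd h1 _)
      (pow_dvd_pow_of_dvd h3 _)).trans hdiv)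

lemma weight_pos {p₁ q₁ p₂ q₂ x y : ℕ} {s t : ℕ → ℕ} (hp₁ : 0 < p₁) (hq₁ : 0 < q₁) (hp₂ : 0 < p₂)
    (hq₂ : 0 < q₂) (hy : 1 ≤ y) (h0 : s 0 < t 0) : 0 < weight p₁ q₁ p₂ q₂ x y s t := by
  unfold weight
  refine Finset.sum_pos' (fun j _ => Nat.zero_le _) ⟨0, Finset.mem_range.2 hy, ?_⟩
  exact Finset.sum_pos (fun i _ => by positivity) ⟨s 0, Finset.mem_Ico.2 ⟨le_refl _, h0⟩⟩

/-- From an arbitrary relation to a balanced one with different first letters. -/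
lemma balanced_aux {a b : ℚ} (ha : a ≠ 0) (hb : b ≠ 0) {w w' : List Bool} (hne : w ≠ w')
    (hc : w.count false = w'.count false) (hc' : w.count true = w'.count true)
    (h : ∀ s, act (fM a) (gM b) w s = act (fM a) (gM b) w' s) :
    ∃ u v : List Bool, (true :: u).count true = (false :: v).count true ∧
      ∀ s, act (fM a) (gM b) (true :: u) s = act (fM a) (gM b) (false :: v) s := by
  induction w generalizing w' with
  | nil =>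
    cases w' with
    | nil => exact absurd rfl hne
    | cons c l => cases c <;> simp at hc hc'
  | cons c l ih =>
    cases w' with
    | nil => cases c <;> simp at hc hc'
    | cons c' l' =>
      cases c <;> cases c'
      · refine ih (w' := l') (fun h0 => hne (by rw [h0])) (by simpa using hc) (by simpa using hc')
          fun s => ?_
        have := h s
        simp only [act, Bool.false_eq_true, if_false, add_zero] at this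
        exact mul_left_cancel₀ ha this
      · exact ⟨l', l, hc'.symm, fun s => (h s).symm⟩
      · exact ⟨l, l', hc', h⟩
      · refine ih (w' := l') (fun h0 => hne (by rw [h0])) (by simpa using hc) (by simpa using hc')
          fun s => ?_
        have := h s
        simp only [act, if_true] at this
        exact mul_left_cancel₀ hb (add_right_cancel this)

lemma ne_of_length_lt {a b : ℚ} (ha : 0 < a) (ha1 : a < 1) (hb : 0 < b) (hb1 : b < 1)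
    {w w' : List Bool} (hl : w.length < w'.length)
    (h : ∀ s, act (fM a) (gM b) w s = act (fM a) (gM b) w' s) : w ++ w' ≠ w' ++ w := by
  intro h0
  have hpre : w <+: w' := List.prefix_of_prefix_length_le
    (l₃ := w ++ w') ⟨w', rfl⟩ ⟨w, h0.symm⟩ hl.le
  obtain ⟨r, rfl⟩ := hpre
  cases r with
  | nil => simp at hl
  | cons c r =>
    have hinj : Function.Injective (act (fM a) (gM b) w) := by
      refine act_injective (fun s t hst => ?_) (fun s t hst => ?_) w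
      · simp only [add_zero] at hst; exact mul_left_cancel₀ ha.ne' hst
      · exact mul_left_cancel₀ hb.ne' (add_right_cancel hst)
    have hid : ∀ s, act (fM a) (gM b) (c :: r) s = s := fun s => by
      apply hinj
      rw [← act_append]
      exact (h s).symm
    have h1 := act_slope a b (c :: r)
    rw [hid, hid] at h1
    have h2 := slope_lt_one (c := c) (l := r) ha ha1 hb hb1
    rw [← h1] at h2
    linarith

lemma balanced {a b : ℚ} (ha : 0 < a) (ha1 : a < 1) (hb : 0 < b) (hb1 : b < 1)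
    {w w' : List Bool} (hne : w ≠ w')
    (h : ∀ s, act (fM a) (gM b) w s = act (fM a) (gM b) w' s) :
    ∃ u v : List Bool, (true :: u).count true = (false :: v).count true ∧
      ∀ s, act (fM a) (gM b) (true :: u) s = act (fM a) (gM b) (false :: v) s := by
  refine balanced_aux ha.ne' hb.ne' (w := w ++ w') (w' := w' ++ w) ?_ ?_ ?_ fun s => ?_
  · rcases lt_trichotomy w.length w'.length with hl | hl | hl
    · exact ne_of_length_lt ha ha1 hb hb1 hl h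
    · exact fun h0 => hne (List.append_inj h0 hl).1
    · exact (ne_of_length_lt ha ha1 hb hb1 hl fun s => (h s).symm).symm
  · rw [List.count_append, List.count_append, add_comm]
  · rw [List.count_append, List.count_append, add_comm]
  · rw [act_append, act_append, h, h]

/-- **Staircase criterion, normalised form.** -/
theorem stair_core {p₁ q₁ p₂ q₂ : ℕ}
    (hp₁ : 0 < p₁) (hpq₁ : p₁ < q₁) (hc₁ : Nat.Coprime p₁ q₁)
    (hp₂ : 0 < p₂) (hpq₂ : p₂ < q₂) (hc₂ : Nat.Coprime p₂ q₂) {w w' : List Bool} (hne : w ≠ w')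
    (h : ∀ s, act (fM ((p₁ : ℚ) / q₁)) (gM ((p₂ : ℚ) / q₂)) w s =
      act (fM ((p₁ : ℚ) / q₁)) (gM ((p₂ : ℚ) / q₂)) w' s) :
    ∃ (x y : ℕ) (s t : ℕ → ℕ), 1 ≤ x ∧ 1 ≤ y ∧ Monotone s ∧ Monotone t ∧ s 0 = 0 ∧ 1 ≤ t 0 ∧
      (∀ j < y, s j ≤ t j ∧ t j ≤ x) ∧
      weight p₁ q₁ p₂ q₂ x y s t * ((q₁ - p₁) * (q₂ - p₂)) < p₁ ^ x * p₂ ^ y ∧
      ∀ P₁ P₂ : ℕ, P₁ ∣ p₁ → Nat.Coprime P₁ q₂ → P₂ ∣ p₂ → Nat.Coprime P₂ q₁ →
        P₁ ^ x * P₂ ^ y ∣ weight p₁ q₁ p₂ q₂ x y s t := by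
  have q1 : (0 : ℚ) < q₁ := by exact_mod_cast hp₁.trans hpq₁
  have q2 : (0 : ℚ) < q₂ := by exact_mod_cast hp₂.trans hpq₂
  have p1 : (0 : ℚ) < p₁ := by exact_mod_cast hp₁
  have p2 : (0 : ℚ) < p₂ := by exact_mod_cast hp₂
  have ha : (0 : ℚ) < p₁ / q₁ := by positivity
  have hb : (0 : ℚ) < p₂ / q₂ := by positivity
  have ha1 : (p₁ : ℚ) / q₁ < 1 := by rw [div_lt_one q1]; exact_mod_cast hpq₁
  have hb1 : (p₂ : ℚ) / q₂ < 1 := by rw [div_lt_one q2]; exact_mod_cast hpq₂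
  obtain ⟨u, v, hcount, huv⟩ := balanced ha ha1 hb hb1 hne h
  have hE := act_x hb1.ne (a := (p₁ : ℚ) / q₁) (true :: u) 0
  rw [huv, act_x hb1.ne, zero_div, act_zero, act_zero, ← hcount] at hE
  obtain ⟨x, y, hx, hy, h1, h2, h3⟩ := stair (s := row (true :: u)) (t := row (false :: v))
    hp₁ hpq₁ hc₁ hp₂ hpq₂ hc₂ (row_mono _) (row_mono _) (by simp [row]) (by simp) hE.symm
  exact ⟨x, y, _, _, hx, hy, row_mono _, row_mono _, by simp [row], by simp [row], h1, h2, h3⟩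

/-- Passing from matrices to the normalised form. -/
lemma normal_of_not_free {x₁ y₁ z₁ x₂ y₂ z₂ p₁ q₁ p₂ q₂ : ℕ}
    (hx₁ : 0 < x₁) (hz₁ : 0 < z₁) (hx₂ : 0 < x₂) (hz₂ : 0 < z₂)
    (hp₁ : 0 < p₁) (hpq₁ : p₁ < q₁) (hp₂ : 0 < p₂) (hpq₂ : p₂ < q₂)
    (hr : (x₁ * q₁ = p₁ * z₁ ∧ x₂ * q₂ = p₂ * z₂) ∨ (z₁ * q₁ = p₁ * x₁ ∧ z₂ * q₂ = p₂ * x₂))
    (hnc : (!![x₁, y₁; 0, z₁] : Matrix (Fin 2) (Fin 2) ℕ) * !![x₂, y₂; 0, z₂] ≠
      !![x₂, y₂; 0, z₂] * !![x₁, y₁; 0, z₁])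
    (hnf : ¬ FreePair x₁ y₁ z₁ x₂ y₂ z₂) :
    ∃ w w' : List Bool, w ≠ w' ∧ ∀ s, act (fM ((p₁ : ℚ) / q₁)) (gM ((p₂ : ℚ) / q₂)) w s =
      act (fM ((p₁ : ℚ) / q₁)) (gM ((p₂ : ℚ) / q₂)) w' s := by
  have hq1 : (0 : ℚ) < q₁ := by exact_mod_cast hp₁.trans hpq₁
  have hq2 : (0 : ℚ) < q₂ := by exact_mod_cast hp₂.trans hpq₂
  have hp1' : (0 : ℚ) < p₁ := by exact_mod_cast hp₁
  have hp2' : (0 : ℚ) < p₂ := by exact_mod_cast hp₂
  have hx1' : (0 : ℚ) < x₁ := by exact_mod_cast hx₁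
  have hx2' : (0 : ℚ) < x₂ := by exact_mod_cast hx₂
  have hz1' : (0 : ℚ) < z₁ := by exact_mod_cast hz₁
  have hz2' : (0 : ℚ) < z₂ := by exact_mod_cast hz₂
  have ha1 : (p₁ : ℚ) / q₁ < 1 := by rw [div_lt_one hq1]; exact_mod_cast hpq₁
  have hb1 : (p₂ : ℚ) / q₂ < 1 := by rw [div_lt_one hq2]; exact_mod_cast hpq₂
  have hnc' : x₁ * y₂ + y₁ * z₂ ≠ x₂ * y₁ + y₂ * z₁ := by
    intro h0
    apply hnc
    rw [Matrix.mul_fin_two, Matrix.mul_fin_two]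
    simp only [mul_zero, zero_mul, add_zero, zero_add]
    rw [h0, mul_comm x₁ x₂, mul_comm z₁ z₂]
  unfold FreePair at hnf
  push Not at hnf
  obtain ⟨w, w', -, -, hw, hne⟩ := hnf
  have hw1 := act_eq_of_prod_eq hz₁ hz₂ hw
  rcases hr with ⟨r1, r2⟩ | ⟨r1, r2⟩
  · have e1 : (x₁ : ℚ) / z₁ = p₁ / q₁ := by
      rw [div_eq_div_iff hz1'.ne' hq1.ne']; exact_mod_cast r1
    have e2 : (x₂ : ℚ) / z₂ = p₂ / q₂ := by
      rw [div_eq_div_iff hz2'.ne' hq2.ne']; exact_mod_cast r2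
    have n1 : x₁ ≠ z₁ := by
      rintro rfl; rw [div_self hz1'.ne'] at e1; linarith
    have n2 : x₂ ≠ z₂ := by
      rintro rfl; rw [div_self hz2'.ne'] at e2; linarith
    have := act_normal hz₁ hz₂ n1 n2 hnc' hw1
    rw [e1, e2] at this
    exact ⟨w, w', hne, this⟩
  · have e1 : ((x₁ : ℚ) / z₁)⁻¹ = p₁ / q₁ := by
      rw [inv_div, div_eq_div_iff hx1'.ne' hq1.ne']; exact_mod_cast r1
    have e2 : ((x₂ : ℚ) / z₂)⁻¹ = p₂ / q₂ := by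
      rw [inv_div, div_eq_div_iff hx2'.ne' hq2.ne']; exact_mod_cast r2
    have n1 : x₁ ≠ z₁ := by
      rintro rfl; rw [div_self hz1'.ne', inv_one] at e1; linarith
    have n2 : x₂ ≠ z₂ := by
      rintro rfl; rw [div_self hz2'.ne', inv_one] at e2; linarith
    have h1 := act_normal hz₁ hz₂ n1 n2 hnc' hw1
    have h2 := act_reverse (div_pos hx1' hz1').ne' (div_pos hx2' hz2').ne' h1
    rw [e1, e2] at h2
    exact ⟨w.reverse, w'.reverse, fun h0 => hne (List.reverse_injective h0), h2⟩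

/-- **Staircase criterion for matrices.** -/
theorem staircase {x₁ y₁ z₁ x₂ y₂ z₂ p₁ q₁ p₂ q₂ : ℕ}
    (hx₁ : 0 < x₁) (hz₁ : 0 < z₁) (hx₂ : 0 < x₂) (hz₂ : 0 < z₂)
    (hp₁ : 0 < p₁) (hpq₁ : p₁ < q₁) (hc₁ : Nat.Coprime p₁ q₁)
    (hp₂ : 0 < p₂) (hpq₂ : p₂ < q₂) (hc₂ : Nat.Coprime p₂ q₂)
    (hr : (x₁ * q₁ = p₁ * z₁ ∧ x₂ * q₂ = p₂ * z₂) ∨ (z₁ * q₁ = p₁ * x₁ ∧ z₂ * q₂ = p₂ * x₂))
    (hnc : (!![x₁, y₁; 0, z₁] : Matrix (Fin 2) (Fin 2) ℕ) * !![x₂, y₂; 0, z₂] ≠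
      !![x₂, y₂; 0, z₂] * !![x₁, y₁; 0, z₁])
    (hnf : ¬ FreePair x₁ y₁ z₁ x₂ y₂ z₂) :
    ∃ (x y : ℕ) (s t : ℕ → ℕ), 1 ≤ x ∧ 1 ≤ y ∧ Monotone s ∧ Monotone t ∧ s 0 = 0 ∧ 1 ≤ t 0 ∧
      (∀ j < y, s j ≤ t j ∧ t j ≤ x) ∧
      weight p₁ q₁ p₂ q₂ x y s t * ((q₁ - p₁) * (q₂ - p₂)) < p₁ ^ x * p₂ ^ y ∧
      ∀ P₁ P₂ : ℕ, P₁ ∣ p₁ → Nat.Coprime P₁ q₂ → P₂ ∣ p₂ → Nat.Coprime P₂ q₁ →
        P₁ ^ x * P₂ ^ y ∣ weight p₁ q₁ p₂ q₂ x y s t := by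
  obtain ⟨w, w', hne, h⟩ := normal_of_not_free hx₁ hz₁ hx₂ hz₂ hp₁ hpq₁ hp₂ hpq₂ hr hnc hnf
  exact stair_core hp₁ hpq₁ hc₁ hp₂ hpq₂ hc₂ hne h

/-- **No separating place.** -/
theorem free_of_no_place {x₁ y₁ z₁ x₂ y₂ z₂ p₁ q₁ p₂ q₂ : ℕ}
    (hx₁ : 0 < x₁) (hz₁ : 0 < z₁) (hx₂ : 0 < x₂) (hz₂ : 0 < z₂)
    (hp₁ : 0 < p₁) (hpq₁ : p₁ < q₁) (hc₁ : Nat.Coprime p₁ q₁)
    (hp₂ : 0 < p₂) (hpq₂ : p₂ < q₂) (hc₂ : Nat.Coprime p₂ q₂)
    (hr : (x₁ * q₁ = p₁ * z₁ ∧ x₂ * q₂ = p₂ * z₂) ∨ (z₁ * q₁ = p₁ * x₁ ∧ z₂ * q₂ = p₂ * x₂))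
    (hnc : (!![x₁, y₁; 0, z₁] : Matrix (Fin 2) (Fin 2) ℕ) * !![x₂, y₂; 0, z₂] ≠
      !![x₂, y₂; 0, z₂] * !![x₁, y₁; 0, z₁])
    (h12 : Nat.Coprime p₁ q₂) (h21 : Nat.Coprime p₂ q₁) : FreePair x₁ y₁ z₁ x₂ y₂ z₂ := by
  by_contra hnf
  obtain ⟨x, y, s, t, hx, hy, hs, ht, h0, h1, -, h2, h3⟩ :=
    staircase hx₁ hz₁ hx₂ hz₂ hp₁ hpq₁ hc₁ hp₂ hpq₂ hc₂ hr hnc hnf
  have h4 := h3 p₁ p₂ (dvd_refl _) h12 (dvd_refl _) h21
  have h5 := weight_pos (x := x) (s := s) (t := t) hp₁ (hp₁.trans hpq₁) hp₂ (hp₂.trans hpq₂) hy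
    (by omega)
  have h6 := Nat.le_of_dvd h5 h4
  have h7 : 1 ≤ (q₁ - p₁) * (q₂ - p₂) := Nat.mul_pos (by omega) (by omega)
  have h8 := Nat.le_mul_of_pos_right (weight p₁ q₁ p₂ q₂ x y s t) h7
  omega

end Pool.Agent.H54.Free

namespace Pool.Agent.H54.Free

lemma val_lt {s b ℓ : ℕ} (hs : 0 < s) (hb : 0 < b) (hℓ : ℓ.Prime) (h : ℓ ∣ s / s.gcd b) :
    padicValNat ℓ b < padicValNat ℓ s := by
  have : Fact ℓ.Prime := ⟨hℓ⟩
  have hg : 0 < s.gcd b := Nat.gcd_pos_of_pos_left _ hs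
  have e1 : s.gcd b * (s / s.gcd b) = s := Nat.mul_div_cancel' (Nat.gcd_dvd_left _ _)
  have e2 : s.gcd b * (b / s.gcd b) = b := Nat.mul_div_cancel' (Nat.gcd_dvd_right _ _)
  have p1 : s / s.gcd b ≠ 0 := by
    intro h0; rw [h0, mul_zero] at e1; omega
  have p2 : b / s.gcd b ≠ 0 := by
    intro h0; rw [h0, mul_zero] at e2; omega
  have c : Nat.Coprime (s / s.gcd b) (b / s.gcd b) := Nat.coprime_div_gcd_div_gcd hg
  have v1 := padicValNat.mul (p := ℓ) hg.ne' p1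
  have v2 := padicValNat.mul (p := ℓ) hg.ne' p2
  rw [e1] at v1
  rw [e2] at v2
  have v3 : padicValNat ℓ (b / s.gcd b) = 0 :=
    padicValNat.eq_zero_of_not_dvd fun h0 => hℓ.one_lt.ne' (Nat.eq_one_of_dvd_coprimes c h h0)
  have v4 : 1 ≤ padicValNat ℓ (s / s.gcd b) := one_le_padicValNat_of_dvd p1 h
  omega

/-- **No separating place**, intrinsic form. -/
theorem free_of_places {x₁ y₁ z₁ x₂ y₂ z₂ : ℕ}
    (hx₁ : 0 < x₁) (hz₁ : 0 < z₁) (hx₂ : 0 < x₂) (hz₂ : 0 < z₂)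
    (hnc : (!![x₁, y₁; 0, z₁] : Matrix (Fin 2) (Fin 2) ℕ) * !![x₂, y₂; 0, z₂] ≠
      !![x₂, y₂; 0, z₂] * !![x₁, y₁; 0, z₁])
    (hreal : 0 < ((x₁ : ℤ) - z₁) * ((x₂ : ℤ) - z₂))
    (hp : ∀ ℓ : ℕ, ℓ.Prime → 0 ≤ ((padicValNat ℓ x₁ : ℤ) - padicValNat ℓ z₁) *
      ((padicValNat ℓ x₂ : ℤ) - padicValNat ℓ z₂)) : FreePair x₁ y₁ z₁ x₂ y₂ z₂ := by
  rcases (mul_pos_iff.1 hreal) with ⟨k1, k2⟩ | ⟨k1, k2⟩
  · -- `x₁ > z₁`
    have l1 : z₁ < x₁ := by omega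
    have l2 : z₂ < x₂ := by omega
    have g1 : 0 < z₁.gcd x₁ := Nat.gcd_pos_of_pos_left _ hz₁
    have g2 : 0 < z₂.gcd x₂ := Nat.gcd_pos_of_pos_left _ hz₂
    have e1 : z₁.gcd x₁ * (z₁ / z₁.gcd x₁) = z₁ := Nat.mul_div_cancel' (Nat.gcd_dvd_left _ _)
    have e2 : z₁.gcd x₁ * (x₁ / z₁.gcd x₁) = x₁ := Nat.mul_div_cancel' (Nat.gcd_dvd_right _ _)
    have e3 : z₂.gcd x₂ * (z₂ / z₂.gcd x₂) = z₂ := Nat.mul_div_cancel' (Nat.gcd_dvd_left _ _)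
    have e4 : z₂.gcd x₂ * (x₂ / z₂.gcd x₂) = x₂ := Nat.mul_div_cancel' (Nat.gcd_dvd_right _ _)
    refine free_of_no_place hx₁ hz₁ hx₂ hz₂ (p₁ := z₁ / z₁.gcd x₁) (q₁ := x₁ / z₁.gcd x₁)
      (p₂ := z₂ / z₂.gcd x₂) (q₂ := x₂ / z₂.gcd x₂) ?_ ?_ (Nat.coprime_div_gcd_div_gcd g1)
      ?_ ?_ (Nat.coprime_div_gcd_div_gcd g2) (Or.inr ⟨?_, ?_⟩) hnc ?_ ?_
    · exact Nat.pos_of_ne_zero fun h0 => by rw [h0, mul_zero] at e1; omega
    · refine lt_of_mul_lt_mul_left ?_ (Nat.zero_le (z₁.gcd x₁))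
      rw [e1, e2]; exact l1
    · exact Nat.pos_of_ne_zero fun h0 => by rw [h0, mul_zero] at e3; omega
    · refine lt_of_mul_lt_mul_left ?_ (Nat.zero_le (z₂.gcd x₂))
      rw [e3, e4]; exact l2
    · calc z₁ * (x₁ / z₁.gcd x₁) = (z₁.gcd x₁ * (z₁ / z₁.gcd x₁)) * (x₁ / z₁.gcd x₁) := by rw [e1]
        _ = (z₁ / z₁.gcd x₁) * (z₁.gcd x₁ * (x₁ / z₁.gcd x₁)) := by ring
        _ = _ := by rw [e2]
    · calc z₂ * (x₂ / z₂.gcd x₂) = (z₂.gcd x₂ * (z₂ / z₂.gcd x₂)) * (x₂ / z₂.gcd x₂) := by rw [e3]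
        _ = (z₂ / z₂.gcd x₂) * (z₂.gcd x₂ * (x₂ / z₂.gcd x₂)) := by ring
        _ = _ := by rw [e4]
    · refine Nat.Coprime.symm (Nat.coprime_of_dvd fun ℓ hℓ d1 d2 => ?_)
      have v1 := val_lt hz₁ hx₁ hℓ d2
      rw [Nat.gcd_comm] at d1
      have v2 := val_lt hx₂ hz₂ hℓ d1
      exact absurd (hp ℓ hℓ) (not_le.2 (mul_neg_of_neg_of_pos (by omega) (by omega)))
    · refine Nat.coprime_of_dvd fun ℓ hℓ d1 d2 => ?_
      have v1 := val_lt hz₂ hx₂ hℓ d1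
      rw [Nat.gcd_comm] at d2
      have v2 := val_lt hx₁ hz₁ hℓ d2
      exact absurd (hp ℓ hℓ) (not_le.2 (mul_neg_of_pos_of_neg (by omega) (by omega)))
  · have l1 : x₁ < z₁ := by omega
    have l2 : x₂ < z₂ := by omega
    have g1 : 0 < x₁.gcd z₁ := Nat.gcd_pos_of_pos_left _ hx₁
    have g2 : 0 < x₂.gcd z₂ := Nat.gcd_pos_of_pos_left _ hx₂
    have e1 : x₁.gcd z₁ * (x₁ / x₁.gcd z₁) = x₁ := Nat.mul_div_cancel' (Nat.gcd_dvd_left _ _)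
    have e2 : x₁.gcd z₁ * (z₁ / x₁.gcd z₁) = z₁ := Nat.mul_div_cancel' (Nat.gcd_dvd_right _ _)
    have e3 : x₂.gcd z₂ * (x₂ / x₂.gcd z₂) = x₂ := Nat.mul_div_cancel' (Nat.gcd_dvd_left _ _)
    have e4 : x₂.gcd z₂ * (z₂ / x₂.gcd z₂) = z₂ := Nat.mul_div_cancel' (Nat.gcd_dvd_right _ _)
    refine free_of_no_place hx₁ hz₁ hx₂ hz₂ (p₁ := x₁ / x₁.gcd z₁) (q₁ := z₁ / x₁.gcd z₁)
      (p₂ := x₂ / x₂.gcd z₂) (q₂ := z₂ / x₂.gcd z₂) ?_ ?_ (Nat.coprime_div_gcd_div_gcd g1)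
      ?_ ?_ (Nat.coprime_div_gcd_div_gcd g2) (Or.inl ⟨?_, ?_⟩) hnc ?_ ?_
    · exact Nat.pos_of_ne_zero fun h0 => by rw [h0, mul_zero] at e1; omega
    · refine lt_of_mul_lt_mul_left ?_ (Nat.zero_le (x₁.gcd z₁))
      rw [e1, e2]; exact l1
    · exact Nat.pos_of_ne_zero fun h0 => by rw [h0, mul_zero] at e3; omega
    · refine lt_of_mul_lt_mul_left ?_ (Nat.zero_le (x₂.gcd z₂))
      rw [e3, e4]; exact l2
    · calc x₁ * (z₁ / x₁.gcd z₁) = (x₁.gcd z₁ * (x₁ / x₁.gcd z₁)) * (z₁ / x₁.gcd z₁) := by rw [e1]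
        _ = (x₁ / x₁.gcd z₁) * (x₁.gcd z₁ * (z₁ / x₁.gcd z₁)) := by ring
        _ = _ := by rw [e2]
    · calc x₂ * (z₂ / x₂.gcd z₂) = (x₂.gcd z₂ * (x₂ / x₂.gcd z₂)) * (z₂ / x₂.gcd z₂) := by rw [e3]
        _ = (x₂ / x₂.gcd z₂) * (x₂.gcd z₂ * (z₂ / x₂.gcd z₂)) := by ring
        _ = _ := by rw [e4]
    · refine Nat.Coprime.symm (Nat.coprime_of_dvd fun ℓ hℓ d1 d2 => ?_)
      have v1 := val_lt hx₁ hz₁ hℓ d2
      rw [Nat.gcd_comm] at d1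
      have v2 := val_lt hz₂ hx₂ hℓ d1
      exact absurd (hp ℓ hℓ) (not_le.2 (mul_neg_of_pos_of_neg (by omega) (by omega)))
    · refine Nat.coprime_of_dvd fun ℓ hℓ d1 d2 => ?_
      have v1 := val_lt hx₂ hz₂ hℓ d1
      rw [Nat.gcd_comm] at d2
      have v2 := val_lt hz₁ hx₁ hℓ d2
      exact absurd (hp ℓ hℓ) (not_le.2 (mul_neg_of_neg_of_pos (by omega) (by omega)))

end Pool.Agent.H54.Free
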